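import Pool.Agent.H62.MP036.Fiber

set_option linter.unusedSectionVars false

open MeasureTheory Set Metric
open scoped RealInnerProductSpace ENNReal

namespace Pool.Agent.H62.MP036

variable {E : Type*} [NormedAddCommGroup E] [InnerProductSpace ℝ E] [FiniteDimensional ℝ E]
  [MeasurableSpace E] [BorelSpace E]

lemma measurable_len {e : E} {P : Set E} (hP : MeasurableSet P) :
    Measurable (fun x => volume (fib e P x)) := by
  have h : MeasurableSet {p : E × ℝ | p.1 + p.2 • e ∈ P} := by
    have : Measurable (fun p : E × ℝ => p.1 + p.2 • e) := by fun_prop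
    exact this hP
  exact measurable_measure_prodMk_left h

/-- one dimensional fibre average -/
def havg (F G : Set ℝ) : Set ℝ := {t | ∃ a, t + a ∈ F ∧ t - a ∈ G}

lemma eq_Icc {F : Set ℝ} (h1 : F.Nonempty) (h2 : IsCompact F) (h3 : Convex ℝ F) :
    ∃ a b, a ≤ b ∧ F = Icc a b := by
  have hc : IsConnected F := ⟨h1, h3.isPreconnected⟩
  refine ⟨sInf F, sSup F, ?_, eq_Icc_of_connected_compact hc h2⟩
  obtain ⟨x, hx⟩ := h1
  exact (csInf_le h2.bddBelow hx).trans (le_csSup h2.bddAbove hx)

lemma volume_havg_le {F G : Set ℝ} (hF : IsCompact F) (hF' : Convex ℝ F)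
    (hG : IsCompact G) (hG' : Convex ℝ G) :
    volume (havg F G) ≤ (volume F + volume G) / 2 := by
  rcases F.eq_empty_or_nonempty with h | h
  · have : havg F G = ∅ := by
      ext t; simp [havg, h]
    simp [this]
  rcases G.eq_empty_or_nonempty with h' | h'
  · have : havg F G = ∅ := by
      ext t; simp [havg, h']
    simp [this]
  obtain ⟨a, b, hab, rfl⟩ := eq_Icc h hF hF'
  obtain ⟨c, d, hcd, rfl⟩ := eq_Icc h' hG hG'
  have hsub : havg (Icc a b) (Icc c d) ⊆ Icc ((a + c) / 2) ((b + d) / 2) := by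
    rintro t ⟨s, ⟨h1, h2⟩, ⟨h3, h4⟩⟩
    constructor <;> linarith
  refine (measure_mono hsub).trans ?_
  simp only [Real.volume_Icc]
  rw [← ENNReal.ofReal_add (by linarith) (by linarith),
    ← ENNReal.ofReal_ofNat, ← ENNReal.ofReal_div_of_pos (by norm_num)]
  apply ENNReal.ofReal_le_ofReal
  linarith

/-- reflected one-dimensional average -/
lemma volume_havg_refl {F G : Set ℝ} (hF : IsCompact F) (hF' : Convex ℝ F) (c : ℝ)
    (hG : ∀ t, t ∈ G ↔ c - t ∈ F) :
    volume (havg F G) = volume F := by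
  rcases F.eq_empty_or_nonempty with h | h
  · have : havg F G = ∅ := by
      ext t; simp [havg, h]
    rw [this, h]
  obtain ⟨a, b, hab, rfl⟩ := eq_Icc h hF hF'
  have : havg (Icc a b) G = Icc ((c + a - b) / 2) ((c + b - a) / 2) := by
    ext t
    simp only [havg, hG, mem_Icc]
    constructor
    · rintro ⟨s, ⟨h1, h2⟩, ⟨h3, h4⟩⟩
      constructor <;> linarith
    · rintro ⟨h1, h2⟩
      refine ⟨(a + b) / 2 - c / 2, ⟨by linarith, by linarith⟩, ⟨by linarith, by linarith⟩⟩
  rw [this, Real.volume_Icc, Real.volume_Icc]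
  congr 1
  ring

/-- fibrewise average of two sets along the direction `e`. -/
def avg (e : E) (P Q : Set E) : Set E := {z | ∃ a : ℝ, z + a • e ∈ P ∧ z - a • e ∈ Q}

lemma fib_avg (e : E) (P Q : Set E) (x : E) :
    fib e (avg e P Q) x = havg (fib e P x) (fib e Q x) := by
  ext t
  simp only [fib, avg, havg, mem_setOf_eq, add_smul, sub_smul, add_assoc, add_sub_assoc]

lemma convex_fib {e : E} {P : Set E} (hP : Convex ℝ P) (x : E) : Convex ℝ (fib e P x) := by
  intro s hs t ht a b ha hb hab
  simp only [mem_fib] at *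
  have := hP hs ht ha hb hab
  convert this using 1
  simp only [smul_add, add_smul, smul_smul, smul_eq_mul]
  nth_rewrite 1 [show x = (a + b) • x by rw [hab, one_smul]]
  rw [add_smul]
  abel

lemma isCompact_fib {e : E} (he : ‖e‖ = 1) {P : Set E} (hP : IsCompact P) (x : E) :
    IsCompact (fib e P x) := by
  have h1 : fib e P x ⊆ (fun y => ⟪e, y - x⟫) '' P := by
    intro t ht
    refine ⟨x + t • e, ht, ?_⟩
    simp [inner_smul_right, real_inner_self_eq_norm_sq, he]
  have h2 : IsClosed (fib e P x) := by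
    have : Continuous (fun t : ℝ => x + t • e) := by fun_prop
    exact hP.isClosed.preimage this
  exact (hP.image (by fun_prop)).of_isClosed_subset h2 h1

lemma convex_avg {e : E} {P Q : Set E} (hP : Convex ℝ P) (hQ : Convex ℝ Q) :
    Convex ℝ (avg e P Q) := by
  rintro z₁ ⟨a₁, h1, h2⟩ z₂ ⟨a₂, h3, h4⟩ s t hs ht hst
  refine ⟨s * a₁ + t * a₂, ?_, ?_⟩
  · convert hP h1 h3 hs ht hst using 1
    module
  · convert hQ h2 h4 hs ht hst using 1
    module

lemma avg_eq_image {e : E} (he : ‖e‖ = 1) (P Q : Set E) :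
    avg e P Q = (fun p : E × E => (1 / 2 : ℝ) • (p.1 + p.2)) ''
      ((P ×ˢ Q) ∩ {p : E × E | p.1 - p.2 = ⟪e, p.1 - p.2⟫ • e}) := by
  ext z
  constructor
  · rintro ⟨a, h1, h2⟩
    refine ⟨(z + a • e, z - a • e), ⟨⟨h1, h2⟩, ?_⟩, ?_⟩
    · simp only [mem_setOf_eq]
      have : z + a • e - (z - a • e) = (2 * a) • e := by module
      rw [this, inner_smul_right, real_inner_self_eq_norm_sq, he]
      simp
    · simp only
      module
  · rintro ⟨⟨p, q⟩, ⟨⟨h1, h2⟩, h3⟩, rfl⟩
    simp only [mem_setOf_eq] at h1 h2 h3 ⊢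
    refine ⟨⟪e, p - q⟫ / 2, ?_, ?_⟩
    · have : (1 / 2 : ℝ) • (p + q) + (⟪e, p - q⟫ / 2) • e = p := by
        have h4 : (⟪e, p - q⟫ / 2) • e = (1 / 2 : ℝ) • (p - q) := by
          nth_rewrite 2 [h3]
          module
        rw [h4]; module
      rw [this]; exact h1
    · have : (1 / 2 : ℝ) • (p + q) - (⟪e, p - q⟫ / 2) • e = q := by
        have h4 : (⟪e, p - q⟫ / 2) • e = (1 / 2 : ℝ) • (p - q) := by
          nth_rewrite 2 [h3]
          module
        rw [h4]; module
      rw [this]; exact h2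

lemma isCompact_avg {e : E} (he : ‖e‖ = 1) {P Q : Set E} (hP : IsCompact P) (hQ : IsCompact Q) :
    IsCompact (avg e P Q) := by
  rw [avg_eq_image he]
  refine IsCompact.image ?_ (by fun_prop)
  refine (hP.prod hQ).inter_right ?_
  exact isClosed_eq (by fun_prop) (by fun_prop)

lemma volume_avg_le {e : E} (he : ‖e‖ = 1) {P Q : Set E} (hP : IsCompact P) (hP' : Convex ℝ P)
    (hQ : IsCompact Q) (hQ' : Convex ℝ Q) :
    volume (avg e P Q) ≤ (volume P + volume Q) / 2 := by
  rw [volume_fiber he (isCompact_avg he hP hQ).measurableSet,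
    volume_fiber he hP.measurableSet, volume_fiber he hQ.measurableSet,
    ← lintegral_add_left (measurable_len hP.measurableSet)]
  simp_rw [div_eq_mul_inv]
  rw [← lintegral_mul_const]
  swap
  · exact (measurable_len hP.measurableSet).add (measurable_len hQ.measurableSet)
  apply lintegral_mono
  intro x
  simp only
  rw [fib_avg, ← div_eq_mul_inv]
  exact volume_havg_le (isCompact_fib he hP x) (convex_fib hP' x) (isCompact_fib he hQ x)
    (convex_fib hQ' x)

/-- Reflection in the hyperplane orthogonal to `e` (for a unit vector `e`). -/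
def rf (e : E) (x : E) : E := x - (2 * ⟪e, x⟫) • e

lemma rf_rf {e : E} (he : ‖e‖ = 1) (x : E) : rf e (rf e x) = x := by
  simp only [rf, inner_sub_right, inner_smul_right, real_inner_self_eq_norm_sq, he]
  module

lemma rf_add (e x y : E) : rf e (x + y) = rf e x + rf e y := by
  simp only [rf, inner_add_right]; module

lemma rf_sub (e x y : E) : rf e (x - y) = rf e x - rf e y := by
  simp only [rf, inner_sub_right]; module

lemma rf_smul (e : E) (c : ℝ) (x : E) : rf e (c • x) = c • rf e x := by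
  simp only [rf, inner_smul_right]; module

lemma rf_neg (e x : E) : rf e (-x) = -rf e x := by
  simp only [rf, inner_neg_right]; module

lemma rf_self {e : E} (he : ‖e‖ = 1) : rf e e = -e := by
  simp only [rf, real_inner_self_eq_norm_sq, he]; module

lemma rf_of_orthogonal {e x : E} (h : ⟪e, x⟫ = 0) : rf e x = x := by
  simp [rf, h]

lemma inner_rf_rf {e : E} (he : ‖e‖ = 1) (x y : E) : ⟪rf e x, rf e y⟫ = ⟪x, y⟫ := by
  simp only [rf, inner_sub_right, inner_sub_left, inner_smul_right, inner_smul_left,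
    real_inner_self_eq_norm_sq, he, real_inner_comm e x]
  simp
  ring

lemma norm_rf {e : E} (he : ‖e‖ = 1) (x : E) : ‖rf e x‖ = ‖x‖ := by
  have h := inner_rf_rf he x x
  rw [real_inner_self_eq_norm_sq, real_inner_self_eq_norm_sq] at h
  exact (sq_eq_sq₀ (norm_nonneg _) (norm_nonneg _)).1 h

lemma continuous_rf (e : E) : Continuous (rf e) := by
  unfold rf; fun_prop

/-- `rf` as a linear isometric equivalence. -/
noncomputable def rfE (e : E) (he : ‖e‖ = 1) : E ≃ₗᵢ[ℝ] E :=
  { toFun := rf e
    map_add' := rf_add e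
    map_smul' := fun c x => rf_smul e c x
    invFun := rf e
    left_inv := rf_rf he
    right_inv := rf_rf he
    norm_map' := norm_rf he }

@[simp] lemma rfE_apply {e : E} (he : ‖e‖ = 1) (x : E) : rfE e he x = rf e x := rfl

lemma volume_preimage_rf {e : E} (he : ‖e‖ = 1) {P : Set E} (hP : MeasurableSet P) :
    volume (rf e ⁻¹' P) = volume P := by
  have := (rfE e he).measurePreserving.measure_preimage hP.nullMeasurableSet
  exact this

lemma volume_preimage_rf_add {e : E} (he : ‖e‖ = 1) {P : Set E} (hP : MeasurableSet P) (v : E) :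
    volume ((fun x => rf e x + v) ⁻¹' P) = volume P := by
  have h : (fun x => rf e x + v) ⁻¹' P = rf e ⁻¹' ((fun x => x + v) ⁻¹' P) := rfl
  rw [h, volume_preimage_rf he, measure_preimage_add_right]
  exact hP.preimage (by fun_prop)

lemma preimage_rf_isCompact {e : E} (he : ‖e‖ = 1) {P : Set E} (hP : IsCompact P) :
    IsCompact (rf e ⁻¹' P) := by
  have h : rf e ⁻¹' P = rf e '' P := by
    ext x
    constructor
    · intro hx; exact ⟨rf e x, hx, rf_rf he x⟩
    · rintro ⟨y, hy, rfl⟩; simpa [rf_rf he] using hy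
  rw [h]
  exact hP.image (continuous_rf e)

lemma preimage_rf_convex {e : E} {P : Set E} (hP : Convex ℝ P) :
    Convex ℝ (rf e ⁻¹' P) := by
  intro x hx y hy a b ha hb hab
  simp only [mem_preimage, rf_add, rf_smul] at *
  exact hP hx hy ha hb hab

/-- Volume of the fibrewise average of a convex body with a reflected copy. -/
lemma volume_avg_refl {e : E} (he : ‖e‖ = 1) {P Q : Set E} (hP : IsCompact P) (hP' : Convex ℝ P)
    (c : ℝ) (hQ : ∀ x, x ∈ Q ↔ rf e x + c • e ∈ P) (hQc : IsCompact Q) :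
    volume (avg e P Q) = volume P := by
  rw [volume_fiber he (isCompact_avg he hP hQc).measurableSet,
    volume_fiber he hP.measurableSet]
  congr 1
  ext x
  rw [fib_avg]
  refine volume_havg_refl (isCompact_fib he hP x) (convex_fib hP' x) (c - 2 * ⟪e, x⟫) ?_
  intro t
  rw [mem_fib, hQ, mem_fib]
  have : rf e (x + t • e) + c • e = x + (c - 2 * ⟪e, x⟫ - t) • e := by
    rw [rf_add, rf_smul, rf_self he, rf]; module
  rw [this]

/-- Steiner symmetrization. -/
def St (e : E) (K : Set E) : Set E := avg e K (rf e ⁻¹' K)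

lemma mem_St {e : E} {K : Set E} {z : E} :
    z ∈ St e K ↔ ∃ a : ℝ, z + a • e ∈ K ∧ rf e (z - a • e) ∈ K := Iff.rfl

lemma isCompact_St {e : E} (he : ‖e‖ = 1) {K : Set E} (hK : IsCompact K) : IsCompact (St e K) :=
  isCompact_avg he hK (preimage_rf_isCompact he hK)

lemma convex_St {e : E} {K : Set E} (hK : Convex ℝ K) : Convex ℝ (St e K) :=
  convex_avg hK (preimage_rf_convex hK)

lemma volume_St {e : E} (he : ‖e‖ = 1) {K : Set E} (hK : IsCompact K) (hK' : Convex ℝ K) :
    volume (St e K) = volume K :=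
  volume_avg_refl he hK hK' 0 (by simp) (preimage_rf_isCompact he hK)

lemma St_mono {e : E} {K L : Set E} (h : K ⊆ L) : St e K ⊆ St e L := by
  rintro z ⟨a, h1, h2⟩
  exact ⟨a, h h1, h h2⟩

lemma rf_mem_St {e : E} (he : ‖e‖ = 1) {K : Set E} {z : E} (hz : z ∈ St e K) : rf e z ∈ St e K := by
  obtain ⟨a, h1, h2⟩ := mem_St.1 hz
  refine mem_St.2 ⟨a, ?_, ?_⟩
  · rw [rf_sub, rf_smul, rf_self he] at h2
    convert h2 using 1; module
  · rw [rf_sub, rf_rf he, rf_smul, rf_self he]
    convert h1 using 1; module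

/-- `St` preserves the symmetry under a reflection in an orthogonal direction. -/
lemma rf_St_of_orthogonal {e f : E} (hef : ⟪e, f⟫ = 0) {K : Set E}
    (hK : ∀ x ∈ K, rf f x ∈ K) {z : E} (hz : z ∈ St e K) : rf f z ∈ St e K := by
  have hfe : ⟪f, e⟫ = 0 := by rw [real_inner_comm]; exact hef
  obtain ⟨a, h1, h2⟩ := mem_St.1 hz
  refine mem_St.2 ⟨a, ?_, ?_⟩
  · have := hK _ h1
    rw [rf_add, rf_smul, rf_of_orthogonal hfe] at this
    exact this
  · have := hK _ h2
    convert this using 1
    simp only [rf, inner_sub_right, inner_smul_right, hef, hfe]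
    module

end Pool.Agent.H62.MP036
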