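import Pool.Agent.H62.MP036.SweepVol

set_option linter.unusedSectionVars false

open MeasureTheory Set Metric
open scoped RealInnerProductSpace ENNReal

namespace Pool.Agent.H62.MP036

section gen
variable {E : Type*} [NormedAddCommGroup E] [InnerProductSpace ℝ E] [FiniteDimensional ℝ E]
  [MeasurableSpace E] [BorelSpace E]

lemma gg_ball_center (x₀ : E) (s : ℝ) (w : E) :
    gg (closedBall x₀ s) w = gg (closedBall 0 s) w := by
  have h1 : sweep (closedBall x₀ s) w = (fun x => x - x₀) ⁻¹' sweep (closedBall 0 s) w := by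
    ext z
    simp only [sweep, mem_setOf_eq, mem_preimage, mem_closedBall, dist_eq_norm]
    constructor
    · rintro ⟨t, ht, h⟩
      exact ⟨t, ht, by convert h using 2; abel⟩
    · rintro ⟨t, ht, h⟩
      exact ⟨t, ht, by convert h using 2; abel⟩
  have h2 : volume (sweep (closedBall x₀ s) w) = volume (sweep (closedBall 0 s) w) := by
    rw [h1]
    simp_rw [sub_eq_add_neg]
    rw [measure_preimage_add_right]
  rw [gg, gg, Measure.real, h2, Measure.real, Measure.real, Measure.real,
    Measure.addHaar_closedBall_center volume x₀ s]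

lemma gg_ball_norm (s : ℝ) {w w' : E} (h : ‖w‖ = ‖w'‖) :
    gg (closedBall 0 s) w = gg (closedBall 0 s) w' := by
  set T := (ℝ ∙ (w - w'))ᗮ.reflection with hT
  have hTw : T w = w' := Submodule.reflection_sub h
  have h1 : sweep (closedBall 0 s) w = T ⁻¹' sweep (closedBall 0 s) w' := by
    ext z
    simp only [sweep, mem_setOf_eq, mem_preimage]
    apply exists_congr
    intro t
    have : T z - t • w' = T (z - t • w) := by rw [map_sub, map_smul, hTw]
    rw [this, mem_closedBall_zero_iff, mem_closedBall_zero_iff, LinearIsometryEquiv.norm_map]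
  have h2 : volume (T ⁻¹' sweep (closedBall 0 s) w') = volume (sweep (closedBall 0 s) w') :=
    T.measurePreserving.measure_preimage
      (isCompact_sweep (isCompact_closedBall _ _) _).measurableSet.nullMeasurableSet
  rw [gg, gg, h1, Measure.real, h2]
  rfl

end gen

/-- The volume of the unit ball of dimension `n`. -/
noncomputable def kap (n : ℕ) : ℝ :=
  volume.real (closedBall (0 : EuclideanSpace ℝ (Fin n)) 1)

lemma kap_pos (n : ℕ) : 0 < kap n := by
  rw [kap, Measure.real, ENNReal.toReal_pos_iff]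
  exact ⟨measure_closedBall_pos _ _ one_pos, measure_closedBall_lt_top⟩

lemma volume_closedBall_real (n : ℕ) {s : ℝ} (hs : 0 ≤ s) (x : EuclideanSpace ℝ (Fin n)) :
    volume.real (closedBall x s) = s ^ n * kap n := by
  rw [kap, Measure.real, Measure.addHaar_closedBall' volume x hs, ENNReal.toReal_mul,
    ENNReal.toReal_ofReal (by positivity), Measure.real, finrank_euclideanSpace, Fintype.card_fin]

/-- The tail of a vector. -/
noncomputable def tl {n : ℕ} (x : EuclideanSpace ℝ (Fin (n + 1))) : EuclideanSpace ℝ (Fin n) :=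
  WithLp.toLp 2 (fun i => x (Fin.succ i))

lemma mp_split (n : ℕ) : MeasurePreserving (fun x : EuclideanSpace ℝ (Fin (n + 1)) =>
    ((x 0 : ℝ), tl x)) volume (volume.prod volume) := by
  have h1 := PiLp.volume_preserving_ofLp (Fin (n + 1))
  have h2 := MeasureTheory.volume_preserving_piFinSuccAbove (fun _ : Fin (n + 1) => ℝ) 0
  have h3 := (MeasurePreserving.id (volume : Measure ℝ)).prod (PiLp.volume_preserving_toLp (Fin n))
  exact h3.comp (h2.comp h1)

lemma norm_sq_split {n : ℕ} (x : EuclideanSpace ℝ (Fin (n + 1))) :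
    ‖x‖ ^ 2 = (x 0) ^ 2 + ‖tl x‖ ^ 2 := by
  rw [EuclideanSpace.norm_sq_eq, EuclideanSpace.norm_sq_eq, Fin.sum_univ_succ]
  simp [tl]

lemma norm_tl_le {n : ℕ} (x : EuclideanSpace ℝ (Fin (n + 1))) : ‖tl x‖ ≤ ‖x‖ := by
  have h := norm_sq_split x
  have h1 : ‖tl x‖ ^ 2 ≤ ‖x‖ ^ 2 := by nlinarith [sq_nonneg (x 0)]
  exact (sq_le_sq₀ (norm_nonneg _) (norm_nonneg _)).1 h1

lemma NN_single (n : ℕ) (s : ℝ) :
    NN (EuclideanSpace.single (0 : Fin (n + 1)) (1 : ℝ)) (closedBall 0 s)
      = volume (closedBall (0 : EuclideanSpace ℝ (Fin n)) s) := by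
  set u : EuclideanSpace ℝ (Fin (n + 1)) := EuclideanSpace.single (0 : Fin (n + 1)) (1 : ℝ) with hu
  have hinner : ∀ x : EuclideanSpace ℝ (Fin (n + 1)), ⟪u, x⟫ = x 0 := by
    intro x
    rw [hu, EuclideanSpace.inner_single_left]
    simp
  have htl : ∀ (x : EuclideanSpace ℝ (Fin (n + 1))) (t : ℝ), tl (x + t • u) = tl x := by
    intro x t
    ext i
    simp [tl, hu]
  have hS : {x : EuclideanSpace ℝ (Fin (n + 1)) | (fib u (closedBall 0 s) x).Nonempty}
      = {x | tl x ∈ closedBall (0 : EuclideanSpace ℝ (Fin n)) s} := by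
    ext x
    simp only [mem_setOf_eq]
    constructor
    · rintro ⟨t, ht⟩
      rw [mem_fib, mem_closedBall_zero_iff] at ht
      rw [mem_closedBall_zero_iff, ← htl x t]
      exact (norm_tl_le _).trans ht
    · intro h
      refine ⟨-(x 0), ?_⟩
      rw [mem_fib, mem_closedBall_zero_iff]
      rw [mem_closedBall_zero_iff] at h
      have h1 := norm_sq_split (x + (-(x 0)) • u)
      rw [htl] at h1
      have h2 : (x + (-(x 0)) • u) 0 = 0 := by simp [hu]
      rw [h2] at h1
      have h3 : ‖x + (-(x 0)) • u‖ ^ 2 = ‖tl x‖ ^ 2 := by rw [h1]; ring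
      have h4 := (sq_eq_sq₀ (norm_nonneg _) (norm_nonneg _)).1 h3
      rw [h4]; exact h
  have hpre : slab u ∩ {x | tl x ∈ closedBall (0 : EuclideanSpace ℝ (Fin n)) s}
      = (fun x : EuclideanSpace ℝ (Fin (n + 1)) => ((x 0 : ℝ), tl x)) ⁻¹'
        (Ico (0 : ℝ) 1 ×ˢ closedBall (0 : EuclideanSpace ℝ (Fin n)) s) := by
    ext x
    simp only [slab, hinner, mem_inter_iff, mem_setOf_eq, mem_preimage, mem_prod]
  have hmeas : MeasurableSet {x : EuclideanSpace ℝ (Fin (n + 1)) |
      tl x ∈ closedBall (0 : EuclideanSpace ℝ (Fin n)) s} := by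
    have : Measurable (fun x : EuclideanSpace ℝ (Fin (n + 1)) => tl x) :=
      measurable_snd.comp (mp_split n).measurable
    exact this isClosed_closedBall.measurableSet
  rw [NN, hS, lintegral_indicator_one hmeas, Measure.restrict_apply hmeas, inter_comm, hpre,
    (mp_split n).measure_preimage
      (measurableSet_Ico.prod isClosed_closedBall.measurableSet).nullMeasurableSet,
    Measure.prod_prod, Real.volume_Ico]
  simp

lemma gg_ball (n : ℕ) {s : ℝ} (hs : 0 ≤ s) (x₀ w : EuclideanSpace ℝ (Fin (n + 1))) :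
    gg (closedBall x₀ s) w = ‖w‖ * (s ^ n * kap n) := by
  have hn : ‖w‖ = ‖(‖w‖ : ℝ) • EuclideanSpace.single (0 : Fin (n + 1)) (1 : ℝ)‖ := by
    rw [norm_smul, EuclideanSpace.norm_single]
    simp
  rw [gg_ball_center, gg_ball_norm s hn, gg_smul_unit (by simp) (isCompact_closedBall _ _)
    (convex_closedBall _ _) (norm_nonneg _), NN_single, ← volume_closedBall_real n hs 0]
  rfl

end Pool.Agent.H62.MP036
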