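import Pool.Agent.H62.MP036.BallVol

set_option linter.unusedSectionVars false

open MeasureTheory Set Metric Filter
open scoped RealInnerProductSpace ENNReal Topology

namespace Pool.Agent.H62.MP036

lemma lim_le {φ : ℝ → ℝ} (hφ : ContinuousAt φ 0) {c : ℝ}
    (h : ∀ ε, 0 < ε → ε < 1 → φ ε ≤ c) : φ 0 ≤ c := by
  have h1 : Tendsto φ (𝓝[>] 0) (𝓝 (φ 0)) := hφ.tendsto.mono_left nhdsWithin_le_nhds
  apply le_of_tendsto h1
  have h2 : ∀ᶠ x : ℝ in 𝓝[>] 0, x ∈ Ioo (0 : ℝ) 1 := Ioo_mem_nhdsGT one_pos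
  filter_upwards [h2] with x hx
  exact h x hx.1 hx.2

/-- P1: lower bound for the volume of the difference body. -/
lemma volume_DD_ge {n : ℕ} {K : Set (EuclideanSpace ℝ (Fin (n + 1)))} (hK : IsCompact K)
    (hK' : Convex ℝ K) {r : ℝ} (hr : 0 < r)
    (hvol : volume K = volume (closedBall (0 : EuclideanSpace ℝ (Fin (n + 1))) r)) :
    (2 * r) ^ (n + 1) * kap (n + 1) ≤ volume.real (DD K) := by
  have key := lim_le (φ := fun ε => (2 * ((1 - ε) * r)) ^ (n + 1) * kap (n + 1))
    (c := volume.real (DD K)) (by fun_prop) (by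
    intro ε hε hε1
    obtain ⟨C, hC, hsub⟩ := exists_orb hK hK' hr hvol hε
    have hs : 0 ≤ (1 - ε) * r := mul_nonneg (by linarith) hr.le
    have h1 : closedBall (0 : EuclideanSpace ℝ (Fin (n + 1))) (2 * ((1 - ε) * r)) ⊆ DD C := by
      intro z hz
      rw [mem_closedBall_zero_iff] at hz
      refine ⟨(1 / 2 : ℝ) • z, hsub ?_, -((1 / 2 : ℝ) • z), hsub ?_, by module⟩
      · rw [mem_closedBall_zero_iff, norm_smul]
        norm_num
        linarith
      · rw [mem_closedBall_zero_iff, norm_neg, norm_smul]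
        norm_num
        linarith
    have h2 := (measure_mono h1).trans (volume_DD_Orb hK hK' hC)
    have h3 := ENNReal.toReal_mono (isCompact_DD hK).measure_ne_top h2
    have h4 := volume_closedBall_real (n + 1) (s := 2 * ((1 - ε) * r)) (by positivity) 0
    rw [← h4]
    exact h3)
  simpa using key

lemma isCompact_ZZ {n : ℕ} {K : Set (EuclideanSpace ℝ (Fin (n + 1)))} (hK : IsCompact K)
    (hK' : Convex ℝ K) (hv : volume K ≠ 0) (m : ℝ) : IsCompact (ZZ K m) := by
  obtain ⟨x₀, hx₀⟩ := interior_nonempty_of_volume hK hK' hv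
  obtain ⟨ρ, hρ, hball⟩ := nhds_basis_closedBall.mem_iff.1 (mem_interior_iff_mem_nhds.1 hx₀)
  have hc : 0 < ρ ^ n * kap n := mul_pos (pow_pos hρ n) (kap_pos n)
  apply (isCompact_closedBall (0 : EuclideanSpace ℝ (Fin (n + 1)))
    (m / (ρ ^ n * kap n))).of_isClosed_subset (isClosed_ZZ hK hK' m)
  intro w hw
  have h1 := gg_mono (isCompact_closedBall x₀ ρ) (convex_closedBall x₀ ρ) hK hK' hball w
  rw [gg_ball n hρ.le] at h1
  have h2 : gg K w ≤ m := hw
  rw [mem_closedBall_zero_iff, le_div_iff₀ hc]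
  linarith

lemma volume_ZZ_Orb {n : ℕ} {K C : Set (EuclideanSpace ℝ (Fin (n + 1)))} (hK : IsCompact K)
    (hK' : Convex ℝ K) (hv : volume K ≠ 0) (m : ℝ) (h : Orb K C) :
    volume (ZZ K m) ≤ volume (ZZ C m) := by
  obtain ⟨R, hR⟩ := hK.isBounded.subset_closedBall 0
  induction h with
  | base => exact le_rfl
  | @step C e he hC ih =>
    obtain ⟨h1, h2, h3, -⟩ := hC.facts hK hK' hR
    calc volume (ZZ K m) ≤ volume (ZZ C m) := ih
      _ = volume (St e (ZZ C m)) :=
        (volume_St he (isCompact_ZZ h1 h2 (by rw [h3]; exact hv) m) (convex_ZZ h1 h2 m)).symm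
      _ ≤ volume (ZZ (St e C) m) := measure_mono (St_ZZ_subset he h1 h2 m)

/-- P2: upper bound for the volume of the polar projection body. -/
lemma volume_ZZ_le {n : ℕ} {K : Set (EuclideanSpace ℝ (Fin (n + 1)))} (hK : IsCompact K)
    (hK' : Convex ℝ K) {r : ℝ} (hr : 0 < r)
    (hvol : volume K = volume (closedBall (0 : EuclideanSpace ℝ (Fin (n + 1))) r)) {m : ℝ}
    (hm : 0 ≤ m) :
    volume.real (ZZ K m) ≤ (m / (r ^ n * kap n)) ^ (n + 1) * kap (n + 1) := by
  have hv : volume K ≠ 0 := by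
    rw [hvol]; exact (measure_closedBall_pos volume _ hr).ne'
  have hkap := kap_pos n
  have hkap' := kap_pos (n + 1)
  have key := lim_le (φ := fun ε => -((m / (((1 - ε) * r) ^ n * kap n)) ^ (n + 1) * kap (n + 1)))
    (c := -volume.real (ZZ K m)) (by
      apply ContinuousAt.neg
      apply ContinuousAt.mul _ continuousAt_const
      apply ContinuousAt.pow
      apply ContinuousAt.div continuousAt_const (by fun_prop)
      simp only [sub_zero, one_mul]
      positivity) (by
    intro ε hε hε1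
    obtain ⟨C, hC, hsub⟩ := exists_orb hK hK' hr hvol hε
    obtain ⟨R, hR⟩ := hK.isBounded.subset_closedBall 0
    obtain ⟨h1, h2, h3, -⟩ := hC.facts hK hK' hR
    have hs : 0 < (1 - ε) * r := mul_pos (by linarith) hr
    have hc : 0 < ((1 - ε) * r) ^ n * kap n := mul_pos (pow_pos hs n) hkap
    have h4 : ZZ C m ⊆ closedBall (0 : EuclideanSpace ℝ (Fin (n + 1)))
        (m / (((1 - ε) * r) ^ n * kap n)) := by
      intro w hw
      have h5 := gg_mono (isCompact_closedBall _ _) (convex_closedBall _ _) h1 h2 hsub w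
      rw [gg_ball n hs.le] at h5
      have h6 : gg C w ≤ m := hw
      rw [mem_closedBall_zero_iff, le_div_iff₀ hc]
      linarith
    have h7 := (volume_ZZ_Orb hK hK' hv m hC).trans (measure_mono h4)
    have h8 := ENNReal.toReal_mono (isCompact_closedBall _ _).measure_ne_top h7
    have h9 := volume_closedBall_real (n + 1) (s := m / (((1 - ε) * r) ^ n * kap n))
      (by positivity) 0
    apply neg_le_neg
    rw [← h9]
    exact h8)
  simpa using key

/-- The translation inequality. -/
lemma le_of_DD_subset_ZZ {n : ℕ} {K : Set (EuclideanSpace ℝ (Fin (n + 1)))} (hK : IsCompact K)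
    (hK' : Convex ℝ K) {r : ℝ} (hr : 0 < r)
    (hvol : volume K = volume (closedBall (0 : EuclideanSpace ℝ (Fin (n + 1))) r)) {m : ℝ}
    (hsub : DD K ⊆ ZZ K m) : 2 * r ^ (n + 1) * kap n ≤ m := by
  have hv : volume K ≠ 0 := by
    rw [hvol]; exact (measure_closedBall_pos volume _ hr).ne'
  have hm : 0 ≤ m := by
    have hne : K.Nonempty := by
      by_contra h
      rw [not_nonempty_iff_eq_empty] at h
      rw [h] at hv
      simp at hv
    obtain ⟨x, hx⟩ := hne
    have h0 : (0 : EuclideanSpace ℝ (Fin (n + 1))) ∈ DD K := ⟨x, hx, x, hx, by simp⟩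
    have : gg K 0 ≤ m := hsub h0
    rwa [gg_zero] at this
  have hkap := kap_pos n
  have hkap' := kap_pos (n + 1)
  have h1 := volume_DD_ge hK hK' hr hvol
  have h2 := volume_ZZ_le hK hK' hr hvol hm
  have h3 : volume.real (DD K) ≤ volume.real (ZZ K m) :=
    measureReal_mono hsub (isCompact_ZZ hK hK' hv m).measure_ne_top
  have h4 : (2 * r) ^ (n + 1) ≤ (m / (r ^ n * kap n)) ^ (n + 1) :=
    le_of_mul_le_mul_right (h1.trans (h3.trans h2)) hkap'
  have h5 : 2 * r ≤ m / (r ^ n * kap n) :=
    le_of_pow_le_pow_left₀ (by omega) (by positivity) h4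
  rw [le_div_iff₀ (by positivity)] at h5
  calc 2 * r ^ (n + 1) * kap n = 2 * r * (r ^ n * kap n) := by ring
    _ ≤ m := h5

/-- Equality case: the difference body is the polar projection body. -/
lemma eq_of_DD_subset_ZZ {n : ℕ} {K : Set (EuclideanSpace ℝ (Fin (n + 1)))} (hK : IsCompact K)
    (hK' : Convex ℝ K) {r : ℝ} (hr : 0 < r)
    (hvol : volume K = volume (closedBall (0 : EuclideanSpace ℝ (Fin (n + 1))) r))
    (hsub : DD K ⊆ ZZ K (2 * r ^ (n + 1) * kap n)) :
    DD K = ZZ K (2 * r ^ (n + 1) * kap n) ∧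
      volume (DD K) = volume (closedBall (0 : EuclideanSpace ℝ (Fin (n + 1))) (2 * r)) := by
  have hv : volume K ≠ 0 := by
    rw [hvol]; exact (measure_closedBall_pos volume _ hr).ne'
  have hkap := kap_pos n
  have hkap' := kap_pos (n + 1)
  set m := 2 * r ^ (n + 1) * kap n with hm
  have hmpos : 0 < m := by positivity
  have h1 := volume_DD_ge hK hK' hr hvol
  have h2 := volume_ZZ_le hK hK' hr hvol hmpos.le
  have hZc := isCompact_ZZ hK hK' hv m
  have h3 : volume (DD K) ≤ volume (ZZ K m) := measure_mono hsub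
  have h4 : m / (r ^ n * kap n) = 2 * r := by
    rw [hm]; field_simp; ring
  rw [h4] at h2
  have h5 := volume_closedBall_real (n + 1) (s := 2 * r) (by positivity) 0
  rw [← h5] at h1 h2
  have h1' : volume (closedBall (0 : EuclideanSpace ℝ (Fin (n + 1))) (2 * r)) ≤ volume (DD K) :=
    (ENNReal.toReal_le_toReal (isCompact_closedBall _ _).measure_ne_top
      (isCompact_DD hK).measure_ne_top).1 h1
  have h2' : volume (ZZ K m) ≤ volume (closedBall (0 : EuclideanSpace ℝ (Fin (n + 1))) (2 * r)) :=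
    (ENNReal.toReal_le_toReal hZc.measure_ne_top
      (isCompact_closedBall _ _).measure_ne_top).1 h2
  constructor
  · apply eq_of_subset_of_volume_le (isCompact_DD hK).isClosed hZc (convex_ZZ hK hK' m) _ hsub
      (h2'.trans h1')
    apply interior_nonempty_of_volume hZc (convex_ZZ hK hK' m)
    have hpos := measure_closedBall_pos volume (0 : EuclideanSpace ℝ (Fin (n + 1)))
      (show 0 < 2 * r by positivity)
    exact (hpos.trans_le (h1'.trans h3)).ne'
  · exact le_antisymm (h3.trans h2') h1'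

end Pool.Agent.H62.MP036
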