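import Mathlib

open MeasureTheory Set Metric

namespace Pool.Agent.H62.MP036

/-- `kappa n` is the volume of the unit ball of `n`-dimensional Euclidean space. -/
noncomputable def kappa (n : ℕ) : ℝ :=
  volume.real (closedBall (0 : EuclideanSpace ℝ (Fin n)) 1)

/-- The set of all numbers `vol (conv (K ∪ σ_L K)) / vol K`, where `L` runs over the
`i`-dimensional affine subspaces of `E^d` which meet `K` and `σ_L` is the reflection about `L`. -/
def reflRatios {d : ℕ} (i : ℕ) (K : Set (EuclideanSpace ℝ (Fin d))) : Set ℝ :=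
  {t | ∃ (L : AffineSubspace ℝ (EuclideanSpace ℝ (Fin d))) (_ : Nonempty L),
    Module.finrank ℝ L.direction = i ∧ ((L : Set (EuclideanSpace ℝ (Fin d))) ∩ K).Nonempty ∧
    t = volume.real (convexHull ℝ (K ∪ EuclideanGeometry.reflection L '' K)) / volume.real K}

end Pool.Agent.H62.MP036
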