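import Pool.Agent.H62.MP036.Final
import Pool.Agent.H62.MP036.Defs

open MeasureTheory Set Metric
open scoped RealInnerProductSpace ENNReal Topology

namespace Pool.Agent.H62.MP036

lemma kappa_eq_kap (n : ℕ) : kappa n = kap n := rfl

lemma hull_eq_of_mem {d : ℕ} (K : Set (EuclideanSpace ℝ (Fin d)))
    (L : AffineSubspace ℝ (EuclideanSpace ℝ (Fin d))) [Nonempty L]
    {p : EuclideanSpace ℝ (Fin d)} (hp : p ∈ L) :
    convexHull ℝ (K ∪ EuclideanGeometry.reflection L '' K) = hull K p L.direction := by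
  unfold hull
  congr 2
  apply image_congr
  intro x _
  rw [EuclideanGeometry.reflection_apply_of_mem L x hp]
  rfl

lemma reflRatios_eq {d : ℕ} (i : ℕ) (K : Set (EuclideanSpace ℝ (Fin d))) :
    reflRatios i K = {t | ∃ p ∈ K, ∃ L₀ : Submodule ℝ (EuclideanSpace ℝ (Fin d)),
      Module.finrank ℝ L₀ = i ∧ t = volume.real (hull K p L₀) / volume.real K} := by
  ext t
  constructor
  · rintro ⟨L, hL, hfin, ⟨p, hpL, hpK⟩, rfl⟩
    exact ⟨p, hpK, L.direction, hfin, by rw [hull_eq_of_mem K L hpL]⟩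
  · rintro ⟨p, hp, L₀, hfin, rfl⟩
    have hmem : p ∈ AffineSubspace.mk' p L₀ := AffineSubspace.self_mem_mk' p L₀
    have hne : Nonempty (AffineSubspace.mk' p L₀) := ⟨⟨p, hmem⟩⟩
    refine ⟨AffineSubspace.mk' p L₀, hne, ?_, ⟨p, hmem, hp⟩, ?_⟩
    · rw [AffineSubspace.direction_mk']; exact hfin
    · have hfin' : L₀ = (AffineSubspace.mk' p L₀).direction :=
        (AffineSubspace.direction_mk' p L₀).symm
      rw [hull_eq_of_mem K (AffineSubspace.mk' p L₀) hmem]
      have : ∀ L₁ : Submodule ℝ (EuclideanSpace ℝ (Fin d)), L₀ = L₁ →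
          hull K p L₀ = hull K p L₁ := by rintro L₁ rfl; rfl
      rw [this _ hfin']

lemma volume_ne_zero_of_interior {d : ℕ} {K : Set (EuclideanSpace ℝ (Fin d))}
    (hint : (interior K).Nonempty) : volume K ≠ 0 :=
  ((isOpen_interior.measure_pos volume hint).trans_le (measure_mono interior_subset)).ne'

/-- The maximum exists. -/
lemma exists_isGreatest {d : ℕ} {i : ℕ} (hi : i ≤ d) {K : Set (EuclideanSpace ℝ (Fin d))}
    (hK : IsCompact K) (hK' : Convex ℝ K) (hint : (interior K).Nonempty) :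
    ∃ c, IsGreatest (reflRatios i K) c ∧
      ∀ p ∈ K, ∀ L₀ : Submodule ℝ (EuclideanSpace ℝ (Fin d)),
        Module.finrank ℝ L₀ = i → volume.real (hull K p L₀) ≤ volume.real K * c := by
  have hv := volume_ne_zero_of_interior hint
  have hvr : 0 < volume.real K := by
    rw [Measure.real, ENNReal.toReal_pos_iff]
    exact ⟨pos_iff_ne_zero.2 hv, hK.measure_lt_top⟩
  have hne : K.Nonempty := hint.mono interior_subset
  obtain ⟨p, hp, L₀, hL₀, hmax⟩ := exists_max hK hK' hne (i := i) (by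
    rw [finrank_euclideanSpace, Fintype.card_fin]; exact hi)
  have hmax' : ∀ q ∈ K, ∀ L₁ : Submodule ℝ (EuclideanSpace ℝ (Fin d)),
      Module.finrank ℝ L₁ = i → volume.real (hull K q L₁) ≤ volume.real (hull K p L₀) := by
    intro q hq L₁ hL₁
    exact ENNReal.toReal_mono (isCompact_hull hK hK' p L₀).measure_ne_top (hmax q hq L₁ hL₁)
  refine ⟨volume.real (hull K p L₀) / volume.real K, ⟨?_, ?_⟩, ?_⟩
  · rw [reflRatios_eq]
    exact ⟨p, hp, L₀, hL₀, rfl⟩
  · rw [reflRatios_eq]
    rintro t ⟨q, hq, L₁, hL₁, rfl⟩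
    have := hmax' q hq L₁ hL₁
    gcongr
  · intro q hq L₁ hL₁
    rw [mul_div_cancel₀ _ hvr.ne']
    exact hmax' q hq L₁ hL₁

lemma hull_ball_le {n : ℕ} {x : EuclideanSpace ℝ (Fin (n + 1))} {r : ℝ} (hr : 0 < r)
    {p : EuclideanSpace ℝ (Fin (n + 1))} (hp : p ∈ closedBall x r)
    (L₀ : Submodule ℝ (EuclideanSpace ℝ (Fin (n + 1)))) :
    volume.real (hull (closedBall x r) p L₀)
      ≤ volume.real (closedBall x r) * (1 + 2 * kap n / kap (n + 1)) := by
  set x' := L₀.reflection (x - p) + p with hx'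
  have hdist : ‖x' - x‖ ≤ 2 * r := by
    have e1 : x' - x = L₀.reflection (x - p) - (x - p) := by rw [hx']; abel
    rw [e1]
    refine (norm_sub_le _ _).trans ?_
    rw [LinearIsometryEquiv.norm_map]
    have : ‖x - p‖ ≤ r := by
      rw [mem_closedBall, dist_comm, dist_eq_norm] at hp; exact hp
    linarith
  have hsub : hull (closedBall x r) p L₀ ⊆ sweep (closedBall x r) (x' - x) := by
    apply convexHull_min _ (convex_sweep (convex_closedBall _ _) _)
    apply union_subset (subset_sweep _ _)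
    rintro _ ⟨y, hy, rfl⟩
    have h1 : L₀.reflection (y - p) + p - (x' - x) ∈ closedBall x r := by
      rw [mem_closedBall, dist_eq_norm] at hy ⊢
      have e1 : L₀.reflection (y - p) + p - (x' - x) - x = L₀.reflection (y - x) := by
        have h5 : L₀.reflection (y - x) = L₀.reflection (y - p) - L₀.reflection (x - p) := by
          rw [← map_sub]; congr 1; abel
        rw [h5, hx']; abel
      rw [e1, LinearIsometryEquiv.norm_map]
      exact hy
    have h2 := add_mem_sweep (x' - x) h1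
    simpa using h2
  have h1 : volume.real (hull (closedBall x r) p L₀)
      ≤ volume.real (sweep (closedBall x r) (x' - x)) :=
    measureReal_mono hsub (isCompact_sweep (isCompact_closedBall _ _) _).measure_ne_top
  have h2 := gg_ball n hr.le x (x' - x)
  rw [gg] at h2
  have hkap := kap_pos n
  have hkap' := kap_pos (n + 1)
  have h3 : ‖x' - x‖ * (r ^ n * kap n) ≤ 2 * r * (r ^ n * kap n) := by gcongr
  have h4 : volume.real (closedBall x r) * (1 + 2 * kap n / kap (n + 1))
      = volume.real (closedBall x r) + 2 * r * (r ^ n * kap n) := by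
    rw [volume_closedBall_real (n + 1) hr.le]
    field_simp
    ring
  rw [h4]
  linarith

theorem bound_thm (d i : ℕ) (hi : 1 ≤ i) (hid : i < d) (K : Set (EuclideanSpace ℝ (Fin d)))
    (hK : IsCompact K) (hK' : Convex ℝ K) (hint : (interior K).Nonempty) :
    ∃ c : ℝ, IsGreatest (reflRatios i K) c ∧ 1 + 2 * kappa (d - 1) / kappa d ≤ c := by
  obtain ⟨n, rfl⟩ : ∃ n, d = n + 1 := ⟨d - 1, by omega⟩
  have hv := volume_ne_zero_of_interior hint
  have hvr : 0 < volume.real K := by
    rw [Measure.real, ENNReal.toReal_pos_iff]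
    exact ⟨pos_iff_ne_zero.2 hv, hK.measure_lt_top⟩
  obtain ⟨c, hc, hM⟩ := exists_isGreatest hid.le hK hK' hint
  refine ⟨c, hc, ?_⟩
  have h1 := main_bound hK hK' hv hi hid hM
  rw [kappa_eq_kap, kappa_eq_kap, Nat.add_sub_cancel]
  exact le_of_mul_le_mul_left h1 hvr

theorem eq_thm (d i : ℕ) (hi : 1 ≤ i) (hid : i < d) (K : Set (EuclideanSpace ℝ (Fin d)))
    (hK : IsCompact K) (hK' : Convex ℝ K) (hint : (interior K).Nonempty) :
    ∃ c : ℝ, IsGreatest (reflRatios i K) c ∧
      (c = 1 + 2 * kappa (d - 1) / kappa d ↔ ∃ x r, K = closedBall x r) := by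
  obtain ⟨n, rfl⟩ : ∃ n, d = n + 1 := ⟨d - 1, by omega⟩
  have hv := volume_ne_zero_of_interior hint
  have hvr : 0 < volume.real K := by
    rw [Measure.real, ENNReal.toReal_pos_iff]
    exact ⟨pos_iff_ne_zero.2 hv, hK.measure_lt_top⟩
  obtain ⟨c, hc, hM⟩ := exists_isGreatest hid.le hK hK' hint
  refine ⟨c, hc, ?_⟩
  rw [kappa_eq_kap, kappa_eq_kap, Nat.add_sub_cancel]
  constructor
  · intro hceq
    rw [hceq] at hM
    obtain ⟨x, r, -, h⟩ := main_eq hK hK' hv hi hid hM
    exact ⟨x, r, h⟩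
  · rintro ⟨x, r, rfl⟩
    apply le_antisymm
    · have hr : 0 < r := by
        by_contra hr
        rw [not_lt] at hr
        apply hv
        rcases hr.eq_or_lt with h | h
        · rw [h, closedBall_zero]; simp
        · rw [closedBall_eq_empty.2 h]; simp
      have h1 := hc.1
      rw [reflRatios_eq] at h1
      obtain ⟨p, hp, L₀, -, h2⟩ := h1
      rw [h2, div_le_iff₀ hvr, mul_comm]
      exact hull_ball_le hr hp L₀
    · have h1 := main_bound hK hK' hv hi hid hM
      exact le_of_mul_le_mul_left h1 hvr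

end Pool.Agent.H62.MP036
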