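import Pool.Agent.H62.MP036.StepA

set_option linter.unusedSectionVars false

open MeasureTheory Set Metric
open scoped RealInnerProductSpace ENNReal

namespace Pool.Agent.H62.MP036

variable {E : Type*} [NormedAddCommGroup E] [InnerProductSpace ℝ E] [FiniteDimensional ℝ E]
  [MeasurableSpace E] [BorelSpace E]

/-- one-dimensional gain -/
lemma gain_one {I J I' : Set ℝ} (hI : IsCompact I) (hI' : Convex ℝ I) (hJ : IsCompact J)
    (hJ' : Convex ℝ J) (c : ℝ) (h1 : ∀ t, t ∈ I' ↔ c - t ∈ I) (h2 : ∀ t, t ∈ J ↔ c - t ∈ J) :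
    volume (I ∩ J) + min (volume (I \ J)) (volume (J \ I)) ≤ volume (havg I I' ∩ J) := by
  rcases I.eq_empty_or_nonempty with h | h
  · simp [h]
  rcases J.eq_empty_or_nonempty with h' | h'
  · simp [h']
  have hle : volume (I ∩ J) + min (volume (I \ J)) (volume (J \ I))
      ≤ min (volume I) (volume J) := by
    apply le_min
    · calc _ ≤ volume (I ∩ J) + volume (I \ J) := by gcongr; exact min_le_left _ _
        _ = volume I := measure_inter_add_sdiff _ hJ.measurableSet
    · calc _ ≤ volume (I ∩ J) + volume (J \ I) := by gcongr; exact min_le_right _ _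
        _ = volume J := by
          rw [inter_comm]
          exact measure_inter_add_sdiff _ hI.measurableSet
  refine hle.trans ?_
  obtain ⟨a, b, hab, rfl⟩ := eq_Icc h hI hI'
  obtain ⟨p, q, hpq, rfl⟩ := eq_Icc h' hJ hJ'
  have hc : p + q = c := by
    have e1 : c - p ∈ Icc p q := (h2 p).1 ⟨le_refl _, hpq⟩
    have e2 : c - q ∈ Icc p q := (h2 q).1 ⟨hpq, le_refl _⟩
    rw [mem_Icc] at e1 e2
    linarith
  have hsub : Icc ((c - min (b - a) (q - p)) / 2) ((c + min (b - a) (q - p)) / 2)
      ⊆ havg (Icc a b) I' ∩ Icc p q := by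
    intro t ht
    rw [mem_Icc] at ht
    have m1 := min_le_left (b - a) (q - p)
    have m2 := min_le_right (b - a) (q - p)
    refine ⟨⟨(a + b) / 2 - c / 2, ?_, ?_⟩, ?_⟩
    · rw [mem_Icc]; constructor <;> linarith
    · rw [h1, mem_Icc]; constructor <;> linarith
    · rw [mem_Icc]; constructor <;> linarith
  calc min (volume (Icc a b)) (volume (Icc p q))
      = volume (Icc ((c - min (b - a) (q - p)) / 2) ((c + min (b - a) (q - p)) / 2)) := by
        rw [Real.volume_Icc, Real.volume_Icc, Real.volume_Icc, ← ENNReal.ofReal_min]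
        congr 1
        ring
    _ ≤ _ := measure_mono hsub

lemma mul_le_min {p q M : ℝ≥0∞} (hp : p ≤ M) (hq : q ≤ M) : p * q ≤ M * min p q := by
  rcases le_total p q with h | h
  · rw [min_eq_left h, mul_comm]
    gcongr
  · rw [min_eq_right h]
    gcongr

lemma mem_closedBall_rf {e : E} (he : ‖e‖ = 1) {r : ℝ} {x : E} :
    rf e x ∈ closedBall (0 : E) r ↔ x ∈ closedBall (0 : E) r := by
  simp [norm_rf he]

lemma rf_fiber {e : E} (he : ‖e‖ = 1) (x : E) (t : ℝ) :
    rf e (x + t • e) = x + (-(2 * ⟪e, x⟫) - t) • e := by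
  rw [rf_add, rf_smul, rf_self he, rf]; module

lemma volume_fib_le {e : E} (he : ‖e‖ = 1) {P : Set E} {R : ℝ} (hP : P ⊆ closedBall 0 R) (x : E) :
    volume (fib e P x) ≤ ENNReal.ofReal (2 * R) := by
  have hsub : fib e P x ⊆ Icc (-⟪e, x⟫ - R) (-⟪e, x⟫ + R) := by
    intro t ht
    have h1 : ‖x + t • e‖ ≤ R := by simpa using hP ht
    have h2 : |⟪e, x + t • e⟫| ≤ R := by
      refine (abs_real_inner_le_norm _ _).trans ?_
      rw [he, one_mul]; exact h1
    have h3 : ⟪e, x + t • e⟫ = ⟪e, x⟫ + t := by
      simp [inner_add_right, inner_smul_right, he]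
    rw [h3, abs_le] at h2
    constructor <;> linarith [h2.1, h2.2]
  refine (measure_mono hsub).trans ?_
  rw [Real.volume_Icc]
  apply ENNReal.ofReal_le_ofReal
  linarith

/-- The gain functional. -/
noncomputable def GG (f g : E → ℝ≥0∞) (e : E) : ℝ≥0∞ := ∫⁻ x, f x * ∫⁻ t : ℝ, g (x + t • e)

lemma GG_eq {e : E} (he : ‖e‖ = 1) {P Q : Set E} (hP : MeasurableSet P) (hQ : MeasurableSet Q) :
    GG (P.indicator 1) (Q.indicator 1) e
      = ∫⁻ x in slab e, volume (fib e P x) * volume (fib e Q x) := by
  have hq : ∀ x, ∫⁻ t : ℝ, (Q.indicator (1 : E → ℝ≥0∞)) (x + t • e) = volume (fib e Q x) := by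
    intro x
    rw [← lintegral_indicator_one (measurableSet_fib hQ x)]
    rfl
  have hp : ∀ x, ∫⁻ t : ℝ, (P.indicator (1 : E → ℝ≥0∞)) (x + t • e) = volume (fib e P x) := by
    intro x
    rw [← lintegral_indicator_one (measurableSet_fib hP x)]
    rfl
  unfold GG
  simp_rw [hq]
  rw [lintegral_fiber he]
  swap
  · exact (measurable_one.indicator hP).mul (measurable_len hQ)
  congr 1
  ext x
  have hshift : ∀ t : ℝ, volume (fib e Q (x + t • e)) = volume (fib e Q x) := by
    intro t
    have : fib e Q (x + t • e) = (fun s => s + t) ⁻¹' (fib e Q x) := by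
      ext s
      simp only [mem_preimage, mem_fib]
      have : x + t • e + s • e = x + (s + t) • e := by module
      rw [this]
    rw [this, measure_preimage_add_right]
  simp_rw [hshift]
  rw [lintegral_mul_const, hp]
  exact (measurable_one.indicator hP).comp (by fun_prop)

lemma gain_le {e : E} (he : ‖e‖ = 1) {C : Set E} (hC : IsCompact C) (hC' : Convex ℝ C) {r R : ℝ}
    (hrR : r ≤ R) (hCR : C ⊆ closedBall 0 R) :
    ENNReal.ofReal (2 * R) * volume (C ∩ closedBall 0 r)
      + GG ((C \ closedBall 0 r).indicator 1) ((closedBall 0 r \ C).indicator 1) e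
      ≤ ENNReal.ofReal (2 * R) * volume (St e C ∩ closedBall 0 r) := by
  set B := closedBall (0 : E) r with hB
  have hBc : IsCompact B := isCompact_closedBall _ _
  have hBm := hBc.measurableSet
  have hCm := hC.measurableSet
  have hBR : B ⊆ closedBall 0 R := closedBall_subset_closedBall hrR
  rw [GG_eq he (hCm.diff hBm) (hBm.diff hCm), volume_fiber he (hCm.inter hBm),
    volume_fiber he ((isCompact_St he hC).measurableSet.inter hBm),
    ← lintegral_const_mul _ (measurable_len (hCm.inter hBm)), 
    ← lintegral_const_mul _ (measurable_len ((isCompact_St he hC).measurableSet.inter hBm)),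
    ← lintegral_add_left ((measurable_len (hCm.inter hBm)).const_mul _)]
  apply lintegral_mono
  intro x
  simp only
  have e1 : fib e (C \ B) x = fib e C x \ fib e B x := rfl
  have e2 : fib e (B \ C) x = fib e B x \ fib e C x := rfl
  have e3 : fib e (C ∩ B) x = fib e C x ∩ fib e B x := rfl
  have e4 : fib e (St e C ∩ B) x = havg (fib e C x) (fib e (rf e ⁻¹' C) x) ∩ fib e B x := by
    rw [← fib_avg]; rfl
  rw [e1, e2, e3, e4]
  have key := gain_one (isCompact_fib he hC x) (convex_fib hC' x) (isCompact_fib he hBc x)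
    (convex_fib (convex_closedBall 0 r) x) (-(2 * ⟪e, x⟫)) (I' := fib e (rf e ⁻¹' C) x) (by
      intro t
      rw [mem_fib, mem_preimage, rf_fiber he, mem_fib]) (by
      intro t
      rw [mem_fib, mem_fib, ← rf_fiber he, hB, mem_closedBall_rf he])
  refine le_trans ?_ (mul_le_mul_right key _)
  rw [mul_add]
  exact add_le_add le_rfl (mul_le_min
    ((measure_mono sdiff_subset).trans (volume_fib_le he hCR x))
    ((measure_mono sdiff_subset).trans (volume_fib_le he hBR x)))

/-- polar coordinates -/
lemma lintegral_polar [Nontrivial E] {h : E → ℝ≥0∞} (hh : Measurable h) :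
    ∫⁻ z, h z = ∫⁻ e : sphere (0 : E) 1, (∫⁻ t in Ioi (0 : ℝ),
      ENNReal.ofReal (t ^ (Module.finrank ℝ E - 1)) * h (t • (e : E)))
        ∂((volume : Measure E).toSphere) := by
  have h0 : ∫⁻ z, h z = ∫⁻ z in ({0}ᶜ : Set E), h z := by
    rw [restrict_compl_singleton]
  rw [h0, ← lintegral_subtype_comap (measurableSet_singleton (0 : E)).compl h]
  have hmp := (volume : Measure E).measurePreserving_homeomorphUnitSphereProd
  have hm : Measurable (fun p : sphere (0 : E) 1 × Ioi (0 : ℝ) =>
    h ((p.2 : ℝ) • (p.1 : E))) := hh.comp (by fun_prop)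
  have key := hmp.lintegral_comp hm
  have e1 : ∀ z : ({0}ᶜ : Set E), h (((homeomorphUnitSphereProd E z).2 : ℝ) •
      ((homeomorphUnitSphereProd E z).1 : E)) = h z := by
    intro z
    congr 1
    have h3 : ((homeomorphUnitSphereProd E).symm (homeomorphUnitSphereProd E z) : E) = z := by
      rw [Homeomorph.symm_apply_apply]
    rw [homeomorphUnitSphereProd_symm_apply_coe] at h3
    exact h3
  simp_rw [e1] at key
  rw [key, lintegral_prod _ hm.aemeasurable]
  congr 1
  ext e
  have hm2 : Measurable (fun y : Ioi (0 : ℝ) => h ((y : ℝ) • (e : E))) := hh.comp (by fun_prop)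
  simp only
  rw [Measure.volumeIoiPow, lintegral_withDensity_eq_lintegral_mul _ (by fun_prop) hm2]
  have e2 := lintegral_subtype_comap (μ := (volume : Measure ℝ)) (measurableSet_Ioi (a := (0 : ℝ)))
    (fun t => ENNReal.ofReal (t ^ (Module.finrank ℝ E - 1)) * h (t • (e : E)))
  rw [← e2]
  rfl

/-- A good direction exists. -/
lemma exists_dir [Nontrivial E] {P Q : Set E} {R : ℝ} (hP : MeasurableSet P)
    (hQ : MeasurableSet Q) (hPR : P ⊆ closedBall 0 R) (hQR : Q ⊆ closedBall 0 R) :
    ∃ e : E, ‖e‖ = 1 ∧ volume P * volume Q ≤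
      ENNReal.ofReal ((2 * R) ^ (Module.finrank ℝ E - 1)) *
        (volume : Measure E).toSphere univ * GG (P.indicator 1) (Q.indicator 1) e := by
  set σ := (volume : Measure E).toSphere with hσ
  set M := ENNReal.ofReal ((2 * R) ^ (Module.finrank ℝ E - 1)) with hM
  have hmQ : Measurable (Q.indicator (1 : E → ℝ≥0∞)) := measurable_one.indicator hQ
  have hmP : Measurable (P.indicator (1 : E → ℝ≥0∞)) := measurable_one.indicator hP
  have hin : Measurable (fun p : E × sphere (0 : E) 1 =>
      ∫⁻ t : ℝ, Q.indicator (1 : E → ℝ≥0∞) (p.1 + t • (p.2 : E))) := by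
    apply Measurable.lintegral_prod_right'
      (f := fun q : (E × sphere (0 : E) 1) × ℝ =>
        Q.indicator (1 : E → ℝ≥0∞) (q.1.1 + q.2 • (q.1.2 : E)))
    exact hmQ.comp (by fun_prop)
  have hGm : Measurable (fun e : sphere (0 : E) 1 => GG (P.indicator 1) (Q.indicator 1) (e : E)) := by
    unfold GG
    apply Measurable.lintegral_prod_right'
      (f := fun q : sphere (0 : E) 1 × E =>
        P.indicator (1 : E → ℝ≥0∞) q.2 * ∫⁻ t : ℝ, Q.indicator (1 : E → ℝ≥0∞) (q.2 + t • (q.1 : E)))
    exact (hmP.comp measurable_snd).mul (hin.comp measurable_swap)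
  have h1 : volume P * volume Q ≤ ∫⁻ e, M * GG (P.indicator 1) (Q.indicator 1) (e : E) ∂σ := by
    have e1 : volume P * volume Q
        = ∫⁻ x, P.indicator (1 : E → ℝ≥0∞) x * ∫⁻ z, Q.indicator (1 : E → ℝ≥0∞) (x + z) := by
      have : ∀ x : E, ∫⁻ z, Q.indicator (1 : E → ℝ≥0∞) (x + z) = volume Q := by
        intro x
        rw [lintegral_add_left_eq_self, lintegral_indicator_one hQ]
      simp_rw [this]
      rw [lintegral_mul_const _ hmP, lintegral_indicator_one hP]
    have e2 : ∀ x, P.indicator (1 : E → ℝ≥0∞) x * ∫⁻ z, Q.indicator (1 : E → ℝ≥0∞) (x + z)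
        ≤ ∫⁻ e, M * (P.indicator (1 : E → ℝ≥0∞) x *
          ∫⁻ t : ℝ, Q.indicator (1 : E → ℝ≥0∞) (x + t • (e : E))) ∂σ := by
      intro x
      by_cases hx : x ∈ P
      · rw [indicator_of_mem hx]
        simp only [Pi.one_apply, one_mul]
        have hmx : Measurable (fun z : E => Q.indicator (1 : E → ℝ≥0∞) (x + z)) :=
          hmQ.comp (by fun_prop)
        rw [lintegral_polar hmx]
        apply lintegral_mono
        intro e
        simp only
        have hmt : Measurable (fun t : ℝ => Q.indicator (1 : E → ℝ≥0∞) (x + t • (e : E))) :=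
          hmQ.comp (by fun_prop)
        rw [← lintegral_const_mul _ hmt]
        refine (setLIntegral_mono' measurableSet_Ioi ?_).trans (setLIntegral_le_lintegral _ _)
        intro t ht
        rw [mem_Ioi] at ht
        by_cases hq : x + t • (e : E) ∈ Q
        · gcongr
          rw [hM]
          apply ENNReal.ofReal_le_ofReal
          gcongr
          have a1 : ‖x‖ ≤ R := by simpa using hPR hx
          have a2 : ‖x + t • (e : E)‖ ≤ R := by simpa using hQR hq
          have a3 : ‖t • (e : E)‖ = t := by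
            rw [norm_smul, norm_eq_of_mem_sphere e, mul_one, Real.norm_eq_abs, abs_of_pos ht]
          have a4 : t • (e : E) = (x + t • (e : E)) - x := by abel
          calc t = ‖t • (e : E)‖ := a3.symm
            _ = ‖(x + t • (e : E)) - x‖ := by rw [← a4]
            _ ≤ ‖x + t • (e : E)‖ + ‖x‖ := norm_sub_le _ _
            _ ≤ 2 * R := by linarith
        · rw [indicator_of_notMem hq]
          simp
      · rw [indicator_of_notMem hx]
        simp
    rw [e1]
    refine (lintegral_mono e2).trans ?_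
    rw [lintegral_lintegral_swap]
    swap
    · apply Measurable.aemeasurable
      apply Measurable.const_mul
      exact (hmP.comp measurable_fst).mul hin
    apply lintegral_mono
    intro e
    simp only
    rw [lintegral_const_mul]
    · rfl
    · exact hmP.mul (hin.comp (by fun_prop : Measurable (fun x : E => (x, e))))
  have hσ0 : σ ≠ 0 := by rw [hσ]; exact Measure.toSphere_ne_zero _
  have hfin : ∫⁻ e, GG (P.indicator 1) (Q.indicator 1) (e : E) ∂σ ≠ ∞ := by
    have hb : ∀ e : sphere (0 : E) 1, GG (P.indicator 1) (Q.indicator 1) (e : E)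
        ≤ volume P * ENNReal.ofReal (2 * R) := by
      intro e
      unfold GG
      calc ∫⁻ x, P.indicator (1 : E → ℝ≥0∞) x *
            ∫⁻ t : ℝ, Q.indicator (1 : E → ℝ≥0∞) (x + t • (e : E))
          ≤ ∫⁻ x, P.indicator (1 : E → ℝ≥0∞) x * ENNReal.ofReal (2 * R) := by
            apply lintegral_mono
            intro x
            simp only
            gcongr
            have : ∫⁻ t : ℝ, Q.indicator (1 : E → ℝ≥0∞) (x + t • (e : E))
                = volume (fib (e : E) Q x) := by
              rw [← lintegral_indicator_one (measurableSet_fib hQ x)]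
              rfl
            rw [this]
            exact volume_fib_le (norm_eq_of_mem_sphere e) hQR x
        _ = volume P * ENNReal.ofReal (2 * R) := by
            rw [lintegral_mul_const _ hmP, lintegral_indicator_one hP]
    refine ne_of_lt ((lintegral_mono hb).trans_lt ?_)
    rw [lintegral_const]
    have hPfin : volume P < ∞ := (measure_mono hPR).trans_lt measure_closedBall_lt_top
    exact ENNReal.mul_lt_top (ENNReal.mul_lt_top hPfin ENNReal.ofReal_lt_top) (measure_lt_top _ _)
  obtain ⟨e, he⟩ := exists_laverage_le hσ0 hfin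
  refine ⟨e, norm_eq_of_mem_sphere e, h1.trans ?_⟩
  rw [lintegral_const_mul _ hGm, mul_assoc]
  gcongr
  rw [laverage_eq, ENNReal.div_le_iff' (by simpa using hσ0) (measure_ne_top _ _)] at he
  exact he

/-- The sets obtained from `K` by finitely many Steiner symmetrizations. -/
inductive Orb (K : Set E) : Set E → Prop
  | base : Orb K K
  | step {C : Set E} {e : E} : ‖e‖ = 1 → Orb K C → Orb K (St e C)

lemma St_subset_ball {e : E} (he : ‖e‖ = 1) {K : Set E} {R : ℝ} (hK : K ⊆ closedBall 0 R) :
    St e K ⊆ closedBall 0 R := by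
  intro z hz
  obtain ⟨a, h1, h2⟩ := mem_St.1 hz
  have h1' := hK h1
  have h2' := (mem_closedBall_rf he).1 (hK h2)
  have := (convex_closedBall (0 : E) R) h1' h2' (by norm_num : (0 : ℝ) ≤ 1 / 2)
    (by norm_num : (0 : ℝ) ≤ 1 / 2) (by norm_num)
  convert this using 1
  module

lemma Orb.facts {K C : Set E} (h : Orb K C) (hK : IsCompact K) (hK' : Convex ℝ K) {R : ℝ}
    (hR : K ⊆ closedBall 0 R) :
    IsCompact C ∧ Convex ℝ C ∧ volume C = volume K ∧ C ⊆ closedBall 0 R := by
  induction h with
  | base => exact ⟨hK, hK', rfl, hR⟩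
  | step he _ ih =>
    obtain ⟨h1, h2, h3, h4⟩ := ih
    exact ⟨isCompact_St he h1, convex_St h2, (volume_St he h1 h2).trans h3, St_subset_ball he h4⟩

/-- One good Steiner symmetrization decreases the distance to the ball. -/
lemma decrease [Nontrivial E] {r R : ℝ} (hR : 0 < R) (hrR : r ≤ R) :
    ∃ c : ℝ, 0 < c ∧ ∀ C : Set E, IsCompact C → Convex ℝ C → C ⊆ closedBall 0 R →
      volume C = volume (closedBall (0 : E) r) →
      ∃ e : E, ‖e‖ = 1 ∧ volume.real (closedBall 0 r \ St e C)
        ≤ volume.real (closedBall 0 r \ C) - c * volume.real (closedBall 0 r \ C) ^ 2 := by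
  set B := closedBall (0 : E) r with hB
  have hBc : IsCompact B := isCompact_closedBall _ _
  have hBm := hBc.measurableSet
  have hBR : B ⊆ closedBall 0 R := closedBall_subset_closedBall hrR
  set M : ℝ := (2 * R) ^ (Module.finrank ℝ E - 1) * (volume : Measure E).toSphere.real univ with hM
  have hMpos : 0 < M := by
    have h1 : (volume : Measure E).toSphere univ ≠ 0 :=
      Measure.measure_univ_ne_zero.2 (Measure.toSphere_ne_zero _)
    have h2 : 0 < (volume : Measure E).toSphere.real univ := by
      rw [Measure.real, ENNReal.toReal_pos_iff]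
      exact ⟨pos_iff_ne_zero.2 h1, measure_lt_top _ _⟩
    positivity
  refine ⟨1 / (2 * R * M), by positivity, ?_⟩
  intro C hC hC' hCR hvol
  have hCm := hC.measurableSet
  obtain ⟨e, he, hdir⟩ := exists_dir (P := C \ B) (Q := B \ C) (R := R) (hCm.diff hBm)
    (hBm.diff hCm) (sdiff_subset.trans hCR) (sdiff_subset.trans hBR)
  refine ⟨e, he, ?_⟩
  have hgain := gain_le he hC hC' hrR hCR
  rw [← hB] at hgain
  set G := GG ((C \ B).indicator 1) ((B \ C).indicator 1) e with hG
  have hSm := (isCompact_St he hC).measurableSet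
  have hBfin : volume B ≠ ∞ := hBc.measure_ne_top
  have hfin1 : volume (C ∩ B) ≠ ∞ := ((measure_mono inter_subset_right).trans_lt
    hBfin.lt_top).ne
  have hfin2 : volume (St e C ∩ B) ≠ ∞ := ((measure_mono inter_subset_right).trans_lt
    hBfin.lt_top).ne
  have hGfin : G ≠ ∞ := by
    refine ne_of_lt (lt_of_le_of_lt (le_trans le_add_self hgain) ?_)
    exact ENNReal.mul_lt_top ENNReal.ofReal_lt_top hfin2.lt_top
  -- real versions
  have r1 : volume.real (C ∩ B) + volume.real (B \ C) = volume.real B := by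
    rw [inter_comm]
    exact measureReal_inter_add_sdiff hCm hBfin
  have r2 : volume.real (St e C ∩ B) + volume.real (B \ St e C) = volume.real B := by
    rw [inter_comm]
    exact measureReal_inter_add_sdiff hSm hBfin
  have r3 : volume.real (C ∩ B) + volume.real (C \ B) = volume.real B := by
    rw [measureReal_inter_add_sdiff hBm hC.measure_ne_top]
    simp only [Measure.real, hvol]
  have r4 : volume.real (C \ B) = volume.real (B \ C) := by linarith
  have r5 : 2 * R * volume.real (C ∩ B) + G.toReal ≤ 2 * R * volume.real (St e C ∩ B) := by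
    have := ENNReal.toReal_mono (ENNReal.mul_ne_top ENNReal.ofReal_ne_top hfin2) hgain
    rw [ENNReal.toReal_add (ENNReal.mul_ne_top ENNReal.ofReal_ne_top hfin1) hGfin,
      ENNReal.toReal_mul, ENNReal.toReal_mul, ENNReal.toReal_ofReal (by positivity)] at this
    exact this
  have r6 : volume.real (C \ B) * volume.real (B \ C) ≤ M * G.toReal := by
    have := ENNReal.toReal_mono (ENNReal.mul_ne_top (ENNReal.mul_ne_top ENNReal.ofReal_ne_top
      (measure_ne_top _ _)) hGfin) hdir
    rw [ENNReal.toReal_mul, ENNReal.toReal_mul, ENNReal.toReal_mul,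
      ENNReal.toReal_ofReal (by positivity)] at this
    exact this
  rw [r4] at r6
  have r7 : 2 * R * volume.real (B \ St e C) ≤ 2 * R * volume.real (B \ C) - G.toReal := by
    nlinarith
  have r8 : volume.real (B \ C) ^ 2 / M ≤ G.toReal := by
    rw [div_le_iff₀ hMpos]
    nlinarith
  have r9 : 2 * R * volume.real (B \ St e C) ≤
      2 * R * (volume.real (B \ C) - 1 / (2 * R * M) * volume.real (B \ C) ^ 2) := by
    have : 2 * R * (volume.real (B \ C) - 1 / (2 * R * M) * volume.real (B \ C) ^ 2)
        = 2 * R * volume.real (B \ C) - volume.real (B \ C) ^ 2 / M := by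
      field_simp
    rw [this]; linarith
  exact le_of_mul_le_mul_left r9 (by positivity)

lemma exists_orb_small [Nontrivial E] {K : Set E} (hK : IsCompact K) (hK' : Convex ℝ K) {r : ℝ}
    (hvol : volume K = volume (closedBall (0 : E) r)) {η : ℝ} (hη : 0 < η) :
    ∃ C, Orb K C ∧ volume.real (closedBall 0 r \ C) < η := by
  obtain ⟨R₀, hR₀⟩ := hK.isBounded.subset_closedBall 0
  set R := max (max R₀ r) 1 with hRdef
  have hR : 0 < R := lt_of_lt_of_le one_pos (le_max_right _ _)
  have hrR : r ≤ R := (le_max_right _ _).trans (le_max_left _ _)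
  have hKR : K ⊆ closedBall 0 R :=
    hR₀.trans (closedBall_subset_closedBall ((le_max_left _ _).trans (le_max_left _ _)))
  obtain ⟨c, hc, hdec⟩ := decrease (E := E) hR hrR
  set S : Set ℝ := {a | ∃ C, Orb K C ∧ a = volume.real (closedBall 0 r \ C)} with hS
  have hne : S.Nonempty := ⟨_, K, Orb.base, rfl⟩
  have hbdd : BddBelow S := ⟨0, by rintro a ⟨C, -, rfl⟩; exact measureReal_nonneg⟩
  set α := sInf S with hα
  have hα0 : 0 ≤ α := le_csInf hne (by rintro a ⟨C, -, rfl⟩; exact measureReal_nonneg)
  have hα1 : α = 0 := by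
    by_contra hne0
    have hpos : 0 < α := lt_of_le_of_ne hα0 (Ne.symm hne0)
    obtain ⟨a, ⟨C, hC, rfl⟩, hlt⟩ := exists_lt_of_csInf_lt hne
      (show sInf S < α + c * α ^ 2 by rw [← hα]; have := mul_pos hc (pow_pos hpos 2); linarith)
    obtain ⟨h1, h2, h3, h4⟩ := hC.facts hK hK' hKR
    obtain ⟨e, he, hle⟩ := hdec C h1 h2 h4 (h3.trans hvol)
    have h5 : α ≤ volume.real (closedBall 0 r \ C) := csInf_le hbdd ⟨C, hC, rfl⟩
    have h6 : α ≤ volume.real (closedBall 0 r \ St e C) := csInf_le hbdd ⟨_, Orb.step he hC, rfl⟩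
    have h7 : c * α ^ 2 ≤ c * volume.real (closedBall 0 r \ C) ^ 2 := by gcongr
    linarith
  obtain ⟨a, ⟨C, hC, rfl⟩, hlt⟩ := exists_lt_of_csInf_lt hne (show sInf S < η by
    rw [← hα, hα1]; exact hη)
  exact ⟨C, hC, hlt⟩

lemma ball_subset_of_small [Nontrivial E] {C : Set E} (hC : IsCompact C) (hC' : Convex ℝ C)
    (hne : C.Nonempty) {r ε : ℝ} (hr : 0 < r) (hε : 0 < ε)
    (hsmall : volume.real (closedBall 0 r \ C) < volume.real (closedBall (0 : E) (ε * r / 2))) :
    closedBall 0 ((1 - ε) * r) ⊆ C := by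
  intro x hx
  by_contra hxC
  have hxn : ‖x‖ ≤ (1 - ε) * r := by simpa using hx
  obtain ⟨f, u, hf1, hf2⟩ := geometric_hahn_banach_closed_point hC' hC.isClosed hxC
  obtain ⟨v, hv⟩ : ∃ v : E, ∀ y, f y = ⟪v, y⟫ :=
    ⟨(InnerProductSpace.toDual ℝ E).symm f, fun y => by
      rw [InnerProductSpace.toDual_symm_apply]⟩
  have hv0 : v ≠ 0 := by
    rintro rfl
    obtain ⟨y, hy⟩ := hne
    have h1 := hf1 y hy
    rw [hv] at h1 hf2
    simp at h1 hf2
    linarith
  have hvn : 0 < ‖v‖ := norm_pos_iff.2 hv0
  set δ := ε * r / 2 with hδ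
  have hδ0 : 0 < δ := by positivity
  set x₁ := x + (δ / ‖v‖) • v with hx₁
  have hsub : closedBall x₁ δ ⊆ closedBall 0 r \ C := by
    intro y hy
    have hy' : ‖y - x₁‖ ≤ δ := by simpa [dist_eq_norm] using hy
    constructor
    · have h1 : ‖x₁‖ ≤ (1 - ε) * r + δ := by
        rw [hx₁]
        refine (norm_add_le _ _).trans ?_
        rw [norm_smul, Real.norm_eq_abs, abs_of_pos (by positivity), div_mul_cancel₀ _ hvn.ne']
        linarith
      have h2 : ‖y‖ ≤ ‖y - x₁‖ + ‖x₁‖ := by
        calc ‖y‖ = ‖(y - x₁) + x₁‖ := by rw [sub_add_cancel]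
          _ ≤ _ := norm_add_le _ _
      rw [mem_closedBall_zero_iff]
      have : (1 - ε) * r + δ + δ = r := by rw [hδ]; ring
      linarith
    · intro hyC
      have h1 := hf1 y hyC
      rw [hv] at h1
      have h2 : ⟪v, y⟫ = ⟪v, x⟫ + δ * ‖v‖ + ⟪v, y - x₁⟫ := by
        have : y = x₁ + (y - x₁) := by abel
        nth_rewrite 1 [this]
        rw [inner_add_right, hx₁, inner_add_right, inner_smul_right, real_inner_self_eq_norm_sq]
        field_simp
      have h3 : -(‖v‖ * δ) ≤ ⟪v, y - x₁⟫ := by
        have := abs_real_inner_le_norm v (y - x₁)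
        rw [abs_le] at this
        have h4 : ‖v‖ * ‖y - x₁‖ ≤ ‖v‖ * δ := by gcongr
        linarith [this.1]
      rw [hv] at hf2
      nlinarith
  have h1 : volume.real (closedBall (0 : E) δ) ≤ volume.real (closedBall 0 r \ C) := by
    have h2 : volume.real (closedBall (0 : E) δ) = volume.real (closedBall x₁ δ) := by
      simp only [Measure.real]
      rw [Measure.addHaar_closedBall_center volume x₁ δ]
    rw [h2]
    exact measureReal_mono hsub ((measure_mono sdiff_subset).trans_lt
      measure_closedBall_lt_top).ne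
  linarith

/-- Steiner symmetrizations converge to the ball of the same volume. -/
theorem exists_orb [Nontrivial E] {K : Set E} (hK : IsCompact K) (hK' : Convex ℝ K) {r : ℝ}
    (hr : 0 < r) (hvol : volume K = volume (closedBall (0 : E) r)) {ε : ℝ} (hε : 0 < ε) :
    ∃ C, Orb K C ∧ closedBall 0 ((1 - ε) * r) ⊆ C := by
  have hpos : 0 < volume.real (closedBall (0 : E) (ε * r / 2)) := by
    rw [Measure.real, ENNReal.toReal_pos_iff]
    exact ⟨measure_closedBall_pos _ _ (by positivity), measure_closedBall_lt_top⟩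
  obtain ⟨C, hC, hlt⟩ := exists_orb_small hK hK' hvol hpos
  obtain ⟨R₀, hR₀⟩ := hK.isBounded.subset_closedBall 0
  obtain ⟨h1, h2, h3, h4⟩ := hC.facts hK hK' hR₀
  refine ⟨C, hC, ball_subset_of_small h1 h2 ?_ hr hε hlt⟩
  by_contra hne
  rw [not_nonempty_iff_eq_empty] at hne
  rw [hne, measure_empty, hvol] at h3
  exact (measure_closedBall_pos volume (0 : E) hr).ne h3

end Pool.Agent.H62.MP036
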