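import Mathlib

open MeasureTheory Set Metric
open scoped RealInnerProductSpace ENNReal

namespace Pool.Agent.H62.MP036

variable {E : Type*} [NormedAddCommGroup E] [InnerProductSpace ℝ E] [FiniteDimensional ℝ E]
  [MeasurableSpace E] [BorelSpace E]

/-- The fibre of `P` through `x` in direction `e`. -/
def fib (e : E) (P : Set E) (x : E) : Set ℝ := {t : ℝ | x + t • e ∈ P}

lemma mem_fib {e : E} {P : Set E} {x : E} {t : ℝ} : t ∈ fib e P x ↔ x + t • e ∈ P := Iff.rfl

lemma measurableSet_fib {e : E} {P : Set E} (hP : MeasurableSet P) (x : E) :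
    MeasurableSet (fib e P x) := by
  have : Measurable (fun t : ℝ => x + t • e) := by fun_prop
  exact this hP

/-- slab of width one -/
def slab (e : E) : Set E := {x | ⟪e, x⟫ ∈ Ico (0 : ℝ) 1}

lemma measurableSet_slab (e : E) : MeasurableSet (slab e) := by
  have : Measurable (fun x : E => ⟪e, x⟫) := by fun_prop
  exact this measurableSet_Ico

lemma fib_slab {e : E} (he : ‖e‖ = 1) (x : E) :
    {t : ℝ | x - t • e ∈ slab e} = Ioc (⟪e, x⟫ - 1) ⟪e, x⟫ := by
  ext t
  simp only [slab, mem_setOf_eq, inner_sub_right, inner_smul_right, real_inner_self_eq_norm_sq, he,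
    mem_Ico, mem_Ioc]
  constructor
  · rintro ⟨h1, h2⟩; constructor <;> linarith
  · rintro ⟨h1, h2⟩; constructor <;> linarith

/-- Fubini along the direction `e`. -/
lemma lintegral_fiber {e : E} (he : ‖e‖ = 1) {f : E → ℝ≥0∞} (hf : Measurable f) :
    ∫⁻ x, f x = ∫⁻ x in slab e, ∫⁻ t : ℝ, f (x + t • e) := by
  have hs := measurableSet_slab e
  rw [← lintegral_indicator hs]
  have h1 : ∀ x, (slab e).indicator (fun x => ∫⁻ t : ℝ, f (x + t • e)) x
      = ∫⁻ t : ℝ, (slab e).indicator (fun _ => 1) x * f (x + t • e) := by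
    intro x
    by_cases hx : x ∈ slab e
    · simp [hx]
    · simp [hx]
  simp_rw [h1]
  rw [lintegral_lintegral_swap]
  swap
  · apply Measurable.aemeasurable
    apply Measurable.mul
    · exact (measurable_one.indicator hs).comp measurable_fst
    · exact hf.comp (by fun_prop)
  have h2 : ∀ t : ℝ, ∫⁻ x, (slab e).indicator (fun _ => 1) x * f (x + t • e)
      = ∫⁻ x, (slab e).indicator (fun _ => 1) (x - t • e) * f x := by
    intro t
    rw [← lintegral_add_right_eq_self (fun x => (slab e).indicator (fun _ => 1) (x - t • e) * f x)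
      (t • e)]
    simp
  simp_rw [h2]
  rw [lintegral_lintegral_swap]
  swap
  · apply Measurable.aemeasurable
    apply Measurable.mul
    · exact (measurable_one.indicator hs).comp (by fun_prop)
    · exact hf.comp (by fun_prop)
  congr 1
  ext x
  rw [lintegral_mul_const]
  swap
  · exact (measurable_one.indicator hs).comp (by fun_prop)
  have h3 : ∫⁻ t : ℝ, (slab e).indicator (fun _ => (1 : ℝ≥0∞)) (x - t • e) = 1 := by
    have : ∀ t : ℝ, (slab e).indicator (fun _ => (1 : ℝ≥0∞)) (x - t • e)
        = (Ioc (⟪e, x⟫ - 1) ⟪e, x⟫).indicator 1 t := by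
      intro t
      rw [← fib_slab he x]
      by_cases h : x - t • e ∈ slab e
      · simp [h]
      · simp [h]
    simp_rw [this]
    rw [lintegral_indicator_one measurableSet_Ioc, Real.volume_Ioc]
    simp
  rw [h3, one_mul]

lemma volume_fiber {e : E} (he : ‖e‖ = 1) {P : Set E} (hP : MeasurableSet P) :
    volume P = ∫⁻ x in slab e, volume (fib e P x) := by
  rw [← lintegral_indicator_one hP, lintegral_fiber he (measurable_one.indicator hP)]
  congr 1
  ext x
  rw [← lintegral_indicator_one (measurableSet_fib hP x)]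
  rfl

end Pool.Agent.H62.MP036
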