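import Pool.Agent.H62.MP036.Max

set_option linter.unusedSectionVars false

open MeasureTheory Set Metric Filter
open scoped RealInnerProductSpace ENNReal Topology

namespace Pool.Agent.H62.MP036

section gen
variable {E : Type*} [NormedAddCommGroup E] [InnerProductSpace ℝ E] [FiniteDimensional ℝ E]
  [MeasurableSpace E] [BorelSpace E]

lemma preimage_add_isCompact {K : Set E} (hK : IsCompact K) (m : E) :
    IsCompact ((fun x => x + m) ⁻¹' K) := by
  have h2 : (fun x => x + m) ⁻¹' K = (fun x => x - m) '' K := by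
    ext x
    constructor
    · intro hx; exact ⟨x + m, hx, by simp⟩
    · rintro ⟨y, hy, rfl⟩; simpa using hy
  rw [h2]
  exact hK.image (by fun_prop)

lemma preimage_add_convex {K : Set E} (hK : Convex ℝ K) (m : E) :
    Convex ℝ ((fun x => x + m) ⁻¹' K) := by
  intro x hx y hy a b ha hb hab
  simp only [mem_preimage] at *
  have := hK hx hy ha hb hab
  obtain rfl : b = 1 - a := by linarith
  convert this using 1
  module

/-- Step A, uncentred. -/
theorem stepA' {K : Set E} (hK : IsCompact K) (hK' : Convex ℝ K) {L₀ : Submodule ℝ E} {u : E}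
    (hu : ‖u‖ = 1) (huL : u ∈ L₀ᗮ) {l : ℝ} (hl : 0 ≤ l) {p q : E} (hpq : p - q - l • u ∈ L₀)
    {C₁ C₂ : Set E} (hC₁ : IsCompact C₁) (hC₁' : Convex ℝ C₁) (hC₂ : IsCompact C₂)
    (hC₂' : Convex ℝ C₂) (h1 : K ⊆ C₁) (h2 : ∀ x ∈ K, L₀.reflection (x - p) + p ∈ C₁)
    (h3 : K ⊆ C₂) (h4 : ∀ x ∈ K, L₀.reflection (x - q) + q ∈ C₂) :
    volume (sweep K (l • u)) ≤ (volume C₁ + volume C₂) / 2 := by
  set v := p - q - l • u with hv
  set m : E := (1 / 2 : ℝ) • (p + q) with hm
  have hrv : L₀.reflection v = v := Submodule.reflection_mem_subspace_eq_self hpq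
  have hru : L₀.reflection u = -u :=
    Submodule.reflection_mem_subspace_orthogonalComplement_eq_neg huL
  have hmp : m - p = -((1 / 2 : ℝ) • v) - (l / 2) • u := by rw [hm, hv]; module
  have hmq : m - q = (1 / 2 : ℝ) • v + (l / 2) • u := by rw [hm, hv]; module
  have key := stepA (K := (fun x => x + m) ⁻¹' K) (preimage_add_isCompact hK m)
    (preimage_add_convex hK' m) hu huL hl (C₁ := (fun x => x + m) ⁻¹' C₁)
    (C₂ := (fun x => x + m) ⁻¹' C₂)
    (preimage_add_isCompact hC₁ m) (preimage_add_convex hC₁' m)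
    (preimage_add_isCompact hC₂ m) (preimage_add_convex hC₂' m)
    (fun x hx => h1 hx) (by
      intro x hx
      have := h2 _ hx
      rw [mem_preimage]
      convert this using 1
      have e1 : x + m - p = x + (m - p) := by abel
      rw [e1, map_add, hmp, map_sub, map_neg, map_smul, map_smul, hrv, hru, hm, hv]
      module)
    (fun x hx => h3 hx) (by
      intro x hx
      have := h4 _ hx
      rw [mem_preimage]
      convert this using 1
      have e1 : x + m - q = x + (m - q) := by abel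
      rw [e1, map_add, hmq, map_add, map_smul, map_smul, hrv, hru, hm, hv]
      module)
  have e1 : sweep ((fun x => x + m) ⁻¹' K) (l • u) = (fun x => x + m) ⁻¹' sweep K (l • u) := by
    ext z
    simp only [sweep, mem_setOf_eq, mem_preimage]
    apply exists_congr
    intro s
    have : z - s • l • u + m = z + m - s • l • u := by abel
    rw [this]
  rw [e1, measure_preimage_add_right, measure_preimage_add_right, measure_preimage_add_right] at key
  exact key

lemma isCompact_hull {K : Set E} (hK : IsCompact K) (hK' : Convex ℝ K) (p : E)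
    (L₀ : Submodule ℝ E) : IsCompact (hull K p L₀) := by
  obtain ⟨f, hf, hspan⟩ := exists_frame L₀ rfl
  rw [hull_eq_hullF hf hspan p]
  exact isCompact_hullF hK hK' _

lemma exists_flat {K : Set E} (hK : IsCompact K) (hK' : Convex ℝ K) (hne : K.Nonempty) {i : ℕ}
    (hi : 1 ≤ i) (hi' : i < Module.finrank ℝ E) {u : E} (hu : ‖u‖ = 1) :
    ∃ l : ℝ, 0 ≤ l ∧ (∀ z ∈ DD K, ⟪u, z⟫ ≤ l) ∧ (∃ z ∈ DD K, ⟪u, z⟫ = l) ∧
      ∃ p ∈ K, ∃ L₀ : Submodule ℝ E, Module.finrank ℝ L₀ = i ∧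
        volume (sweep K (l • u)) ≤ volume (hull K p L₀) := by
  obtain ⟨p, hp, hpmax⟩ := hK.exists_isMaxOn hne (f := fun y => ⟪u, y⟫) (by fun_prop)
  obtain ⟨q, hq, hqmin⟩ := hK.exists_isMinOn hne (f := fun y => ⟪u, y⟫) (by fun_prop)
  have hp' : ∀ x ∈ K, ⟪u, x⟫ ≤ ⟪u, p⟫ := fun x hx => hpmax hx
  have hq' : ∀ x ∈ K, ⟪u, q⟫ ≤ ⟪u, x⟫ := fun x hx => hqmin hx
  set l := ⟪u, p - q⟫ with hl
  have hl' : l = ⟪u, p⟫ - ⟪u, q⟫ := by rw [hl, inner_sub_right]
  have hl0 : 0 ≤ l := by rw [hl']; linarith [hp' q hq]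
  have huv : ⟪u, p - q - l • u⟫ = 0 := by
    rw [inner_sub_right, inner_smul_right, real_inner_self_eq_norm_sq, hu, hl]; ring
  obtain ⟨L₀, hL₀, hv, huL⟩ := exists_subspace hu huv hi hi'
  refine ⟨l, hl0, ?_, ⟨p - q, ⟨p, hp, q, hq, rfl⟩, rfl⟩, ?_⟩
  · rintro z ⟨x, hx, y, hy, rfl⟩
    rw [inner_sub_right, hl']
    linarith [hp' x hx, hq' y hy]
  · have key := stepA' hK hK' hu huL hl0 hv (isCompact_hull hK hK' p L₀) (convex_convexHull ℝ _)
      (isCompact_hull hK hK' q L₀) (convex_convexHull ℝ _)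
      (subset_union_left.trans (subset_convexHull ℝ _))
      (fun x hx => subset_convexHull ℝ _ (mem_union_right _ ⟨x, hx, rfl⟩))
      (subset_union_left.trans (subset_convexHull ℝ _))
      (fun x hx => subset_convexHull ℝ _ (mem_union_right _ ⟨x, hx, rfl⟩))
    rcases le_total (volume (hull K p L₀)) (volume (hull K q L₀)) with h | h
    · refine ⟨q, hq, L₀, hL₀, key.trans ?_⟩
      calc (volume (hull K p L₀) + volume (hull K q L₀)) / 2
          ≤ (volume (hull K q L₀) + volume (hull K q L₀)) / 2 := by gcongr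
        _ = volume (hull K q L₀) := by
          rw [ENNReal.add_div, ENNReal.add_halves]
    · refine ⟨p, hp, L₀, hL₀, key.trans ?_⟩
      calc (volume (hull K p L₀) + volume (hull K q L₀)) / 2
          ≤ (volume (hull K p L₀) + volume (hull K p L₀)) / 2 := by gcongr
        _ = volume (hull K p L₀) := by
          rw [ENNReal.add_div, ENNReal.add_halves]

end gen

section dims
variable {n : ℕ}

lemma DD_subset_ZZ {K : Set (EuclideanSpace ℝ (Fin (n + 1)))} (hK : IsCompact K)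
    (hK' : Convex ℝ K) (hne : K.Nonempty) {i : ℕ} (hi : 1 ≤ i) (hi' : i < n + 1) {m : ℝ}
    (hM : ∀ p ∈ K, ∀ L₀ : Submodule ℝ (EuclideanSpace ℝ (Fin (n + 1))),
      Module.finrank ℝ L₀ = i → volume.real (hull K p L₀) ≤ volume.real K + m) :
    ∀ u : EuclideanSpace ℝ (Fin (n + 1)), ‖u‖ = 1 → ∃ l : ℝ, 0 ≤ l ∧
      (∀ z ∈ DD K, ⟪u, z⟫ ≤ l) ∧ (∃ z ∈ DD K, ⟪u, z⟫ = l) ∧ l • u ∈ ZZ K m := by
  intro u hu
  obtain ⟨l, hl0, hl1, hl2, p, hp, L₀, hL₀, hle⟩ := exists_flat hK hK' hne hi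
    (by rw [finrank_euclideanSpace, Fintype.card_fin]; exact hi') hu
  refine ⟨l, hl0, hl1, hl2, ?_⟩
  have h1 := hM p hp L₀ hL₀
  have h2 := ENNReal.toReal_mono (isCompact_hull hK hK' p L₀).measure_ne_top hle
  simp only [ZZ, mem_setOf_eq, gg]
  simp only [Measure.real] at h1 ⊢
  linarith

lemma DD_subset_ZZ' {K : Set (EuclideanSpace ℝ (Fin (n + 1)))} (hK : IsCompact K)
    (hK' : Convex ℝ K) (hne : K.Nonempty) {m : ℝ}
    (h : ∀ u : EuclideanSpace ℝ (Fin (n + 1)), ‖u‖ = 1 → ∃ l : ℝ, 0 ≤ l ∧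
      (∀ z ∈ DD K, ⟪u, z⟫ ≤ l) ∧ (∃ z ∈ DD K, ⟪u, z⟫ = l) ∧ l • u ∈ ZZ K m) :
    DD K ⊆ ZZ K m := by
  intro z hz
  by_cases hz0 : z = 0
  · obtain ⟨l, hl0, -, -, hl⟩ := h (EuclideanSpace.single 0 1) (by simp)
    have h1 : gg K (l • EuclideanSpace.single 0 1) ≤ m := hl
    have h2 := gg_nonneg hK (l • EuclideanSpace.single (0 : Fin (n + 1)) (1 : ℝ))
    simp only [ZZ, mem_setOf_eq, hz0, gg_zero]
    linarith
  obtain ⟨u, hu, hzu⟩ := exists_unit hz0
  obtain ⟨l, hl0, hl1, -, hl⟩ := h u hu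
  have h1 : gg K (l • u) ≤ m := hl
  have h2 := hl1 z hz
  have h3 : ⟪u, z⟫ = ‖z‖ := by
    nth_rewrite 1 [hzu]
    rw [inner_smul_right, real_inner_self_eq_norm_sq, hu]; ring
  rw [h3] at h2
  simp only [ZZ, mem_setOf_eq]
  rw [hzu, gg_smul_unit hu hK hK' (norm_nonneg _)]
  rw [gg_smul_unit hu hK hK' hl0] at h1
  refine le_trans ?_ h1
  gcongr

lemma exists_radius {K : Set (EuclideanSpace ℝ (Fin (n + 1)))} (hK : IsCompact K)
    (hv : volume K ≠ 0) : ∃ r : ℝ, 0 < r ∧
      volume K = volume (closedBall (0 : EuclideanSpace ℝ (Fin (n + 1))) r) ∧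
      volume.real K = r ^ (n + 1) * kap (n + 1) := by
  have hkap := kap_pos (n + 1)
  have hvr : 0 < volume.real K := by
    rw [Measure.real, ENNReal.toReal_pos_iff]
    exact ⟨pos_iff_ne_zero.2 hv, hK.measure_lt_top⟩
  set r := (volume.real K / kap (n + 1)) ^ (1 / ((n + 1 : ℕ) : ℝ)) with hr
  have hr0 : 0 < r := by positivity
  have hrn : r ^ (n + 1) = volume.real K / kap (n + 1) := by
    rw [hr, ← Real.rpow_natCast, ← Real.rpow_mul (by positivity)]
    rw [one_div_mul_cancel (by positivity), Real.rpow_one]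
  have h1 : volume.real K = r ^ (n + 1) * kap (n + 1) := by
    rw [hrn]; field_simp
  refine ⟨r, hr0, ?_, h1⟩
  have h2 := volume_closedBall_real (n + 1) hr0.le 0
  rw [← h1] at h2
  exact ((ENNReal.toReal_eq_toReal_iff' (isCompact_closedBall _ _).measure_ne_top
    hK.measure_ne_top).1 h2).symm

/-- Main inequality (Q1). -/
theorem main_bound {K : Set (EuclideanSpace ℝ (Fin (n + 1)))} (hK : IsCompact K)
    (hK' : Convex ℝ K) (hv : volume K ≠ 0) {i : ℕ} (hi : 1 ≤ i) (hi' : i < n + 1) {M : ℝ}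
    (hM : ∀ p ∈ K, ∀ L₀ : Submodule ℝ (EuclideanSpace ℝ (Fin (n + 1))),
      Module.finrank ℝ L₀ = i → volume.real (hull K p L₀) ≤ M) :
    volume.real K * (1 + 2 * kap n / kap (n + 1)) ≤ M := by
  have hkap := kap_pos (n + 1)
  have hne : K.Nonempty := by
    by_contra h
    rw [not_nonempty_iff_eq_empty] at h
    rw [h] at hv
    simp at hv
  obtain ⟨r, hr, hvol, hvr⟩ := exists_radius hK hv
  have h1 := DD_subset_ZZ hK hK' hne hi hi' (m := M - volume.real K) (by
    intro p hp L₀ hL₀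
    have := hM p hp L₀ hL₀
    linarith)
  have h2 := le_of_DD_subset_ZZ hK hK' hr hvol (DD_subset_ZZ' hK hK' hne h1)
  have h3 : volume.real K * (1 + 2 * kap n / kap (n + 1))
      = volume.real K + 2 * r ^ (n + 1) * kap n := by
    rw [mul_add, mul_one, hvr]
    field_simp
  rw [h3]
  linarith

/-- Equality case (Q2). -/
theorem main_eq {K : Set (EuclideanSpace ℝ (Fin (n + 1)))} (hK : IsCompact K)
    (hK' : Convex ℝ K) (hv : volume K ≠ 0) {i : ℕ} (hi : 1 ≤ i) (hi' : i < n + 1)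
    (hM : ∀ p ∈ K, ∀ L₀ : Submodule ℝ (EuclideanSpace ℝ (Fin (n + 1))),
      Module.finrank ℝ L₀ = i →
        volume.real (hull K p L₀) ≤ volume.real K * (1 + 2 * kap n / kap (n + 1))) :
    ∃ c r, 0 < r ∧ K = closedBall c r := by
  have hkap := kap_pos (n + 1)
  have hne : K.Nonempty := by
    by_contra h
    rw [not_nonempty_iff_eq_empty] at h
    rw [h] at hv
    simp at hv
  obtain ⟨r, hr, hvol, hvr⟩ := exists_radius hK hv
  have h3 : volume.real K * (1 + 2 * kap n / kap (n + 1))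
      = volume.real K + 2 * r ^ (n + 1) * kap n := by
    rw [mul_add, mul_one, hvr]
    field_simp
  have h1 := DD_subset_ZZ hK hK' hne hi hi' (m := 2 * r ^ (n + 1) * kap n) (by
    intro p hp L₀ hL₀
    have := hM p hp L₀ hL₀
    rw [h3] at this
    exact this)
  obtain ⟨h4, h5⟩ := eq_of_DD_subset_ZZ hK hK' hr hvol (DD_subset_ZZ' hK hK' hne h1)
  have hDne : (DD K).Nonempty := by
    obtain ⟨x, hx⟩ := hne
    exact ⟨_, x, hx, x, hx, rfl⟩
  obtain ⟨ρ, hρ0, hρ⟩ := ball_of_pedal (isCompact_DD hK) (convex_DD hK') hDne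
    (fun x hx => neg_mem_DD hx) (by
      intro u hu x hx hmax
      obtain ⟨l, hl0, hl1, ⟨z, hz, hzl⟩, hl⟩ := h1 u hu
      have : ⟪u, x⟫ = l := le_antisymm (hl1 x hx) (by rw [← hzl]; exact hmax z hz)
      rw [this, h4]
      exact hl)
  have hρr : ρ = 2 * r := by
    rw [hρ] at h5
    have h6 : volume.real (closedBall (0 : EuclideanSpace ℝ (Fin (n + 1))) ρ)
        = volume.real (closedBall (0 : EuclideanSpace ℝ (Fin (n + 1))) (2 * r)) := by
      simp only [Measure.real, h5]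
    rw [volume_closedBall_real (n + 1) hρ0, volume_closedBall_real (n + 1) (by positivity)] at h6
    have h7 := mul_right_cancel₀ hkap.ne' h6
    exact (pow_left_inj₀ hρ0 (by positivity) (by omega)).1 h7
  obtain ⟨c, hc⟩ := isodiametric_ball (EuclideanSpace.basisFun (Fin (n + 1)) ℝ) hr Finset.univ K
    hK hK' (by rw [hρ, hρr]) hvol (by intro i hi; exact absurd (Finset.mem_univ i) hi)
  exact ⟨c, r, hr, hc⟩

end dims

end Pool.Agent.H62.MP036
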