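import Pool.Agent.H62.MP036.Rigid

set_option linter.unusedSectionVars false

open MeasureTheory Set Metric Filter
open scoped RealInnerProductSpace ENNReal Topology

namespace Pool.Agent.H62.MP036

variable {E : Type*} [NormedAddCommGroup E] [InnerProductSpace ℝ E] [FiniteDimensional ℝ E]
  [MeasurableSpace E] [BorelSpace E]

/-- Convex hull of `K` and of its reflection about `p + L₀`. -/
def hull (K : Set E) (p : E) (L₀ : Submodule ℝ E) : Set E :=
  convexHull ℝ (K ∪ (fun x => L₀.reflection (x - p) + p) '' K)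

/-- parametrized version by frames. -/
def psi {i : ℕ} (a : E × (Fin i → E)) (x : E) : E :=
  ((2 : ℝ) • ∑ j, ⟪a.2 j, x - a.1⟫ • a.2 j - (x - a.1)) + a.1

lemma continuous_psi {i : ℕ} : Continuous (fun q : (E × (Fin i → E)) × E => psi q.1 q.2) := by
  unfold psi
  fun_prop

def hullF {i : ℕ} (K : Set E) (a : E × (Fin i → E)) : Set E :=
  convexHull ℝ (K ∪ psi a '' K)

lemma isCompact_convexHull_union {A B : Set E} (hA : IsCompact A) (hA' : Convex ℝ A)
    (hB : IsCompact B) (hB' : Convex ℝ B) : IsCompact (convexHull ℝ (A ∪ B)) := by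
  rcases A.eq_empty_or_nonempty with h | h
  · rw [h, empty_union, hB'.convexHull_eq]; exact hB
  rcases B.eq_empty_or_nonempty with h' | h'
  · rw [h', union_empty, hA'.convexHull_eq]; exact hA
  rw [hA'.convexHull_union hB' h h']
  have : convexJoin ℝ A B = (fun q : ℝ × (E × E) => (1 - q.1) • q.2.1 + q.1 • q.2.2) ''
      (Icc (0 : ℝ) 1 ×ˢ (A ×ˢ B)) := by
    ext z
    rw [mem_convexJoin]
    constructor
    · rintro ⟨a, ha, b, hb, hz⟩
      rw [segment_eq_image] at hz
      obtain ⟨t, ht, rfl⟩ := hz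
      exact ⟨(t, (a, b)), ⟨ht, ha, hb⟩, rfl⟩
    · rintro ⟨⟨t, a, b⟩, ⟨ht, ha, hb⟩, rfl⟩
      refine ⟨a, ha, b, hb, ?_⟩
      rw [segment_eq_image]
      exact ⟨t, ht, rfl⟩
  rw [this]
  exact (isCompact_Icc.prod (hA.prod hB)).image (by fun_prop)

lemma isCompact_psi_image {i : ℕ} {K : Set E} (hK : IsCompact K) (a : E × (Fin i → E)) :
    IsCompact (psi a '' K) :=
  hK.image (continuous_psi.comp (by fun_prop : Continuous (fun x : E => (a, x))))

lemma convex_psi_image {i : ℕ} {K : Set E} (hK : Convex ℝ K) (a : E × (Fin i → E)) :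
    Convex ℝ (psi a '' K) := by
  rintro _ ⟨x, hx, rfl⟩ _ ⟨y, hy, rfl⟩ s t hs ht hst
  refine ⟨s • x + t • y, hK hx hy hs ht hst, ?_⟩
  simp only [psi]
  obtain rfl : t = 1 - s := by linarith
  have h1 : s • x + (1 - s) • y - a.1 = s • (x - a.1) + (1 - s) • (y - a.1) := by
    module
  rw [h1]
  have h2 : ∑ j, ⟪a.2 j, s • (x - a.1) + (1 - s) • (y - a.1)⟫ • a.2 j
      = s • ∑ j, ⟪a.2 j, x - a.1⟫ • a.2 j + (1 - s) • ∑ j, ⟪a.2 j, y - a.1⟫ • a.2 j := by
    rw [Finset.smul_sum, Finset.smul_sum, ← Finset.sum_add_distrib]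
    apply Finset.sum_congr rfl
    intro j _
    rw [inner_add_right, inner_smul_right, inner_smul_right]
    module
  rw [h2]
  module

lemma isCompact_hullF {i : ℕ} {K : Set E} (hK : IsCompact K) (hK' : Convex ℝ K)
    (a : E × (Fin i → E)) : IsCompact (hullF K a) :=
  isCompact_convexHull_union hK hK' (isCompact_psi_image hK a) (convex_psi_image hK' a)

lemma usc_hullF {i : ℕ} {K : Set E} (hK : IsCompact K) (hK' : Convex ℝ K) :
    UpperSemicontinuous (fun a : E × (Fin i → E) => volume (hullF K a)) := by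
  intro a y hy
  have hG := isCompact_hullF hK hK' a
  have h1 := tendsto_measure_cthickening_of_isCompact (μ := (volume : Measure E)) hG
  have h2 : ∀ᶠ δ : ℝ in 𝓝 0, volume (cthickening δ (hullF K a)) < y :=
    h1.eventually (gt_mem_nhds hy)
  have h3 : ∀ᶠ δ : ℝ in 𝓝[>] 0, volume (cthickening δ (hullF K a)) < y :=
    h2.filter_mono nhdsWithin_le_nhds
  obtain ⟨δ, hδ, hδ0⟩ := (h3.and self_mem_nhdsWithin).exists
  replace hδ0 : 0 < δ := hδ0
  have h4 : ∀ᶠ a' in 𝓝 a, ∀ x ∈ K, dist (psi a' x) (psi a x) < δ := by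
    apply hK.eventually_forall_of_forall_eventually
    intro x _
    have hc : Continuous (fun q : (E × (Fin i → E)) × E => dist (psi q.1 q.2) (psi a q.2)) := by
      apply Continuous.dist continuous_psi
      exact continuous_psi.comp (by fun_prop : Continuous
        (fun q : (E × (Fin i → E)) × E => (a, q.2)))
    have : (fun q : (E × (Fin i → E)) × E => dist (psi q.1 q.2) (psi a q.2)) (a, x) < δ := by
      simpa using hδ0
    exact hc.continuousAt.eventually (gt_mem_nhds this)
  filter_upwards [h4] with a' ha'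
  refine lt_of_le_of_lt (measure_mono ?_) hδ
  apply convexHull_min
  · apply union_subset
    · exact (subset_union_left.trans (subset_convexHull ℝ _)).trans (self_subset_cthickening _)
    · rintro _ ⟨x, hx, rfl⟩
      apply mem_cthickening_of_dist_le _ (psi a x) δ
      · exact subset_convexHull ℝ _ (mem_union_right _ ⟨x, hx, rfl⟩)
      · exact (ha' x hx).le
  · exact (convex_convexHull ℝ _).cthickening δ

lemma reflection_of_orthonormal {i : ℕ} {L₀ : Submodule ℝ E} {f : Fin i → E}
    (hf : Orthonormal ℝ f) (hspan : Submodule.span ℝ (range f) = L₀) (y : E) :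
    L₀.reflection y = (2 : ℝ) • ∑ j, ⟪f j, y⟫ • f j - y := by
  have hproj : L₀.starProjection y = ∑ j, ⟪f j, y⟫ • f j := by
    apply Submodule.eq_starProjection_of_mem_of_inner_eq_zero
    · apply Submodule.sum_mem
      intro j _
      apply Submodule.smul_mem
      rw [← hspan]
      exact Submodule.subset_span ⟨j, rfl⟩
    · intro w hw
      rw [← hspan] at hw
      induction hw using Submodule.span_induction with
      | mem x hx =>
        obtain ⟨k, rfl⟩ := hx
        rw [inner_sub_left, sum_inner]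
        have : ∑ j, ⟪⟪f j, y⟫ • f j, f k⟫ = ⟪f k, y⟫ := by
          rw [Finset.sum_eq_single k]
          · rw [inner_smul_left, real_inner_self_eq_norm_sq, hf.1 k]; simp
          · intro j _ hjk
            rw [inner_smul_left, hf.2 hjk]; simp
          · simp
        rw [this, real_inner_comm]; ring
      | zero => simp
      | add x y _ _ h1 h2 => rw [inner_add_right, h1, h2, add_zero]
      | smul c x _ h => rw [inner_smul_right, h, mul_zero]
  rw [Submodule.reflection_apply, hproj, two_smul, two_smul]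

lemma exists_frame {i : ℕ} (L₀ : Submodule ℝ E) (h : Module.finrank ℝ L₀ = i) :
    ∃ f : Fin i → E, Orthonormal ℝ f ∧ Submodule.span ℝ (range f) = L₀ := by
  subst h
  set b := stdOrthonormalBasis ℝ L₀
  refine ⟨fun j => (b j : E), ?_, ?_⟩
  · exact b.orthonormal.comp_linearIsometry L₀.subtypeₗᵢ
  · have h1 : range (fun j => (b j : E)) = L₀.subtype '' range b := by
      rw [← range_comp]; rfl
    rw [h1, Submodule.span_image]
    have h2 : Submodule.span ℝ (range b) = ⊤ := by
      have := b.toBasis.span_eq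
      simpa using this
    rw [h2, Submodule.map_top, Submodule.range_subtype]

lemma hull_eq_hullF {i : ℕ} {K : Set E} {L₀ : Submodule ℝ E} {f : Fin i → E}
    (hf : Orthonormal ℝ f) (hspan : Submodule.span ℝ (range f) = L₀) (p : E) :
    hull K p L₀ = hullF K (p, f) := by
  unfold hull hullF
  congr 2
  apply image_congr
  intro x _
  simp only [psi]
  rw [reflection_of_orthonormal hf hspan]

/-- The maximum in the definition of `c_i` is attained. -/
lemma exists_max {K : Set E} (hK : IsCompact K) (hK' : Convex ℝ K) (hne : K.Nonempty) {i : ℕ}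
    (hi : i ≤ Module.finrank ℝ E) :
    ∃ p ∈ K, ∃ L₀ : Submodule ℝ E, Module.finrank ℝ L₀ = i ∧
      ∀ q ∈ K, ∀ L₁ : Submodule ℝ E, Module.finrank ℝ L₁ = i →
        volume (hull K q L₁) ≤ volume (hull K p L₀) := by
  set X : Set (E × (Fin i → E)) := {a | a.1 ∈ K ∧ Orthonormal ℝ a.2} with hX
  have hXc : IsCompact X := by
    have hcl : IsClosed {f : Fin i → E | Orthonormal ℝ f} := by
      have : {f : Fin i → E | Orthonormal ℝ f}
          = ⋂ j : Fin i, ⋂ k : Fin i, {f | ⟪f j, f k⟫ = if j = k then (1 : ℝ) else 0} := by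
        ext f
        simp only [mem_setOf_eq, mem_iInter, orthonormal_iff_ite]
      rw [this]
      apply isClosed_iInter; intro j
      apply isClosed_iInter; intro k
      exact isClosed_eq (by fun_prop) continuous_const
    have hX' : X = K ×ˢ {f : Fin i → E | Orthonormal ℝ f} := by
      ext a; simp [hX]
    rw [hX']
    apply hK.prod
    apply (isCompact_closedBall (0 : Fin i → E) 1).of_isClosed_subset hcl
    intro f hf
    rw [mem_closedBall_zero_iff, pi_norm_le_iff_of_nonneg zero_le_one]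
    intro j
    rw [hf.1 j]
  have hXne : X.Nonempty := by
    obtain ⟨x, hx⟩ := hne
    obtain ⟨f, hf⟩ : ∃ f : Fin i → E, Orthonormal ℝ f := by
      refine ⟨fun j => stdOrthonormalBasis ℝ E (Fin.castLE hi j), ?_⟩
      exact (stdOrthonormalBasis ℝ E).orthonormal.comp _ (Fin.castLE_injective hi)
    exact ⟨(x, f), hx, hf⟩
  obtain ⟨⟨p, f⟩, ⟨hp, hf⟩, hmax⟩ := ((usc_hullF (i := i) hK hK').upperSemicontinuousOn
    X).exists_isMaxOn hXne hXc
  refine ⟨p, hp, Submodule.span ℝ (range f), ?_, ?_⟩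
  · have := finrank_span_eq_card hf.linearIndependent
    rw [this, Fintype.card_fin]
  · intro q hq L₁ hL₁
    obtain ⟨g, hg, hg'⟩ := exists_frame L₁ hL₁
    rw [hull_eq_hullF hg hg' q, hull_eq_hullF hf rfl p]
    exact hmax (show (q, g) ∈ X from ⟨hq, hg⟩)

lemma exists_subspace {u v : E} (hu : ‖u‖ = 1) (huv : ⟪u, v⟫ = 0) {i : ℕ} (h1 : 1 ≤ i)
    (h2 : i < Module.finrank ℝ E) :
    ∃ L₀ : Submodule ℝ E, Module.finrank ℝ L₀ = i ∧ v ∈ L₀ ∧ u ∈ L₀ᗮ := by
  have hu0 : u ≠ 0 := by rintro rfl; simp at hu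
  have hW : 1 + Module.finrank ℝ ((ℝ ∙ u)ᗮ : Submodule ℝ E) = Module.finrank ℝ E := by
    have := Submodule.finrank_add_finrank_orthogonal (ℝ ∙ u)
    rwa [finrank_span_singleton hu0] at this
  set W : Submodule ℝ E := (ℝ ∙ u)ᗮ with hWdef
  have hWmem : ∀ x, x ∈ W ↔ ⟪u, x⟫ = 0 :=
    fun x => Submodule.mem_orthogonal_singleton_iff_inner_right
  -- enlarge by one dimension
  have step : ∀ L : Submodule ℝ E, L ≤ W → Module.finrank ℝ L < Module.finrank ℝ W →
      ∃ L' : Submodule ℝ E, L ≤ L' ∧ L' ≤ W ∧ Module.finrank ℝ L' = Module.finrank ℝ L + 1 := by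
    intro L hL hlt
    have hne : ∃ y ∈ W, y ∉ L := by
      by_contra hcon
      push Not at hcon
      have : W ≤ L := hcon
      have := Submodule.finrank_mono this
      omega
    obtain ⟨y, hyW, hyL⟩ := hne
    refine ⟨L ⊔ (ℝ ∙ y), le_sup_left, sup_le hL ?_, Submodule.finrank_sup_span_singleton hyL⟩
    rw [Submodule.span_singleton_le_iff_mem]
    exact hyW
  have base : ∃ L : Submodule ℝ E, v ∈ L ∧ L ≤ W ∧ Module.finrank ℝ L = 1 := by
    by_cases hv : v = 0
    · obtain ⟨L', -, h5, h6⟩ := step ⊥ bot_le (by rw [finrank_bot]; omega)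
      refine ⟨L', by rw [hv]; exact L'.zero_mem, h5, ?_⟩
      rw [h6, finrank_bot]
    · refine ⟨ℝ ∙ v, Submodule.mem_span_singleton_self v, ?_, finrank_span_singleton hv⟩
      rw [Submodule.span_singleton_le_iff_mem, hWmem]
      exact huv
  have key : ∀ k, 1 ≤ k → k ≤ i → ∃ L : Submodule ℝ E, v ∈ L ∧ L ≤ W ∧
      Module.finrank ℝ L = k := by
    intro k hk
    induction k, hk using Nat.le_induction with
    | base => intro _; exact base
    | succ k hk ih =>
      intro hki
      obtain ⟨L, h3, h4, h5⟩ := ih (by omega)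
      obtain ⟨L', h6, h7, h8⟩ := step L h4 (by omega)
      exact ⟨L', h6 h3, h7, by omega⟩
  obtain ⟨L, h3, h4, h5⟩ := key i h1 le_rfl
  refine ⟨L, h5, h3, ?_⟩
  rw [Submodule.mem_orthogonal]
  intro w hw
  rw [real_inner_comm]
  exact (hWmem w).1 (h4 hw)

end Pool.Agent.H62.MP036
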