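import Pool.Agent.H62.MP036.Bounds

set_option linter.unusedSectionVars false

open MeasureTheory Set Metric Filter
open scoped RealInnerProductSpace ENNReal Topology

namespace Pool.Agent.H62.MP036

/-- A function on `[0,1]` with quadratically small increments has equal end values. -/
lemma quad_const {φ : ℝ → ℝ} {C : ℝ}
    (h : ∀ s ∈ Icc (0 : ℝ) 1, ∀ t ∈ Icc (0 : ℝ) 1, |φ s - φ t| ≤ C * (s - t) ^ 2) :
    φ 1 = φ 0 := by
  have hC : 0 ≤ C := by
    have := (abs_nonneg _).trans (h 1 (by simp) 0 (by simp))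
    simpa using this
  have key : ∀ n : ℕ, 0 < n → |φ 1 - φ 0| ≤ C / n := by
    intro n hn
    have hn' : (0 : ℝ) < n := by exact_mod_cast hn
    have ind : ∀ k : ℕ, k ≤ n → |φ (k / n) - φ 0| ≤ k * (C / n ^ 2) := by
      intro k
      induction k with
      | zero => intro _; simp
      | succ k ih =>
        intro hk
        have hk1 : ((k : ℝ) + 1) ≤ n := by exact_mod_cast hk
        have h1 := h ((k + 1 : ℕ) / n) ⟨by positivity, by
          rw [div_le_one hn']; push_cast; exact hk1⟩ (k / n) ⟨by positivity, by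
          rw [div_le_one hn']; linarith⟩
        have h2 := ih (by omega)
        have h3 : (((k + 1 : ℕ) : ℝ) / n - k / n) ^ 2 = 1 / n ^ 2 := by
          push_cast; field_simp; ring
        rw [h3] at h1
        calc |φ ((k + 1 : ℕ) / n) - φ 0|
            = |(φ ((k + 1 : ℕ) / n) - φ (k / n)) + (φ (k / n) - φ 0)| := by ring_nf
          _ ≤ |φ ((k + 1 : ℕ) / n) - φ (k / n)| + |φ (k / n) - φ 0| := abs_add_le _ _
          _ ≤ C * (1 / n ^ 2) + k * (C / n ^ 2) := add_le_add h1 h2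
          _ = (k + 1 : ℕ) * (C / n ^ 2) := by push_cast; ring
    have := ind n le_rfl
    rw [div_self hn'.ne'] at this
    calc |φ 1 - φ 0| ≤ n * (C / n ^ 2) := this
      _ = C / n := by field_simp
  have hlim : Tendsto (fun n : ℕ => C / (n : ℝ)) atTop (𝓝 0) :=
    tendsto_const_div_atTop_nhds_zero_nat C
  have h0 : |φ 1 - φ 0| ≤ 0 := by
    apply ge_of_tendsto hlim
    filter_upwards [eventually_gt_atTop 0] with n hn
    exact key n hn
  have := abs_nonpos_iff.1 h0
  linarith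

variable {E : Type*} [NormedAddCommGroup E] [InnerProductSpace ℝ E] [FiniteDimensional ℝ E]
  [MeasurableSpace E] [BorelSpace E]

/-- The pedal rigidity: abstract form for a function on unit vectors. -/
lemma pedal_const {h : E → ℝ} {ρ : ℝ} (hρ : ∀ u, ‖u‖ = 1 → h u ≤ ρ)
    (h0 : ∀ u, ‖u‖ = 1 → 0 ≤ h u)
    (hneg : ∀ u, ‖u‖ = 1 → h (-u) = h u)
    (hp : ∀ u v, ‖u‖ = 1 → ‖v‖ = 1 → h u * ⟪u, v⟫ ≤ h v) :
    ∀ u v, ‖u‖ = 1 → ‖v‖ = 1 → h u = h v := by
  have hquad : ∀ u v, ‖u‖ = 1 → ‖v‖ = 1 → |h u - h v| ≤ ρ * ‖u - v‖ ^ 2 := by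
    have aux : ∀ u v, ‖u‖ = 1 → ‖v‖ = 1 → h u - h v ≤ ρ * ‖u - v‖ ^ 2 := by
      intro u v hu hv
      have h1 := hp u v hu hv
      have h2 : ‖u - v‖ ^ 2 = 2 - 2 * ⟪u, v⟫ := by
        rw [norm_sub_sq_real, hu, hv]; ring
      have h3 := hρ u hu
      have h4 := h0 u hu
      have h5 : h u - h v ≤ h u * (1 - ⟪u, v⟫) := by linarith
      have h6 : 0 ≤ ‖u - v‖ ^ 2 := by positivity
      rw [h2] at h6 ⊢
      nlinarith
    intro u v hu hv
    rw [abs_le]
    constructor
    · have := aux v u hv hu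
      rw [norm_sub_rev] at this
      linarith
    · exact aux u v hu hv
  -- the case of nonnegative inner product
  have main : ∀ u v, ‖u‖ = 1 → ‖v‖ = 1 → 0 ≤ ⟪u, v⟫ → h u = h v := by
    intro u v hu hv huv
    set p : ℝ → E := fun t => u + t • (v - u) with hpdef
    have hnorm : ∀ t ∈ Icc (0 : ℝ) 1, 1 / 2 ≤ ‖p t‖ ^ 2 := by
      intro t ⟨ht0, ht1⟩
      have : ‖p t‖ ^ 2 = (1 - t) ^ 2 + t ^ 2 + 2 * t * (1 - t) * ⟪u, v⟫ := by
        have e1 : p t = (1 - t) • u + t • v := by simp only [hpdef]; module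
        rw [e1, norm_add_sq_real, norm_smul, norm_smul, hu, hv, inner_smul_left, inner_smul_right,
          Real.norm_eq_abs, Real.norm_eq_abs, mul_one, mul_one, sq_abs, sq_abs]
        simp; ring
      rw [this]
      have : 0 ≤ 2 * t * (1 - t) * ⟪u, v⟫ := by
        apply mul_nonneg _ huv
        nlinarith
      nlinarith [sq_nonneg (2 * t - 1)]
    have hpos : ∀ t ∈ Icc (0 : ℝ) 1, 0 < ‖p t‖ := by
      intro t ht
      have := hnorm t ht
      by_contra hneg'
      have h0' : ‖p t‖ = 0 := le_antisymm (not_lt.1 hneg') (norm_nonneg _)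
      rw [h0'] at this
      norm_num at this
    set q : ℝ → E := fun t => (‖p t‖⁻¹ : ℝ) • p t with hqdef
    have hq1 : ∀ t ∈ Icc (0 : ℝ) 1, ‖q t‖ = 1 := by
      intro t ht
      rw [hqdef]
      simp only
      rw [norm_smul, norm_inv, norm_norm, inv_mul_cancel₀ (hpos t ht).ne']
    have hlip : ∀ s ∈ Icc (0 : ℝ) 1, ∀ t ∈ Icc (0 : ℝ) 1, ‖q s - q t‖ ^ 2
        ≤ 8 * ‖v - u‖ ^ 2 * (s - t) ^ 2 := by
      intro s hs t ht
      have hs' := hpos s hs
      have ht' := hpos t ht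
      have e1 : ‖p s‖ • (q s - q t) = (p s - p t) + (‖p t‖ - ‖p s‖) • q t := by
        have a1 : ‖p s‖ • q s = p s := by
          simp only [hqdef]; rw [smul_smul, mul_inv_cancel₀ hs'.ne', one_smul]
        have a2 : ‖p t‖ • q t = p t := by
          simp only [hqdef]; rw [smul_smul, mul_inv_cancel₀ ht'.ne', one_smul]
        rw [smul_sub, a1, sub_smul, a2]
        abel
      have e2 : ‖p s‖ * ‖q s - q t‖ ≤ 2 * ‖p s - p t‖ := by
        have : ‖‖p s‖ • (q s - q t)‖ = ‖p s‖ * ‖q s - q t‖ := by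
          rw [norm_smul, norm_norm]
        rw [← this, e1]
        refine (norm_add_le _ _).trans ?_
        rw [norm_smul, hq1 t ht, mul_one, Real.norm_eq_abs]
        have := abs_norm_sub_norm_le (p t) (p s)
        rw [norm_sub_rev] at this
        linarith
      have e3 : ‖p s - p t‖ ^ 2 = ‖v - u‖ ^ 2 * (s - t) ^ 2 := by
        have : p s - p t = (s - t) • (v - u) := by simp only [hpdef]; module
        rw [this, norm_smul, Real.norm_eq_abs, mul_pow, sq_abs]; ring
      have e4 : (‖p s‖ * ‖q s - q t‖) ^ 2 ≤ (2 * ‖p s - p t‖) ^ 2 := by gcongr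
      have e5 := hnorm s hs
      rw [mul_pow, mul_pow, e3] at e4
      nlinarith [sq_nonneg (‖q s - q t‖)]
    have := quad_const (φ := fun t => h (q t)) (C := |ρ| * (8 * ‖v - u‖ ^ 2)) (by
      intro s hs t ht
      refine (hquad _ _ (hq1 s hs) (hq1 t ht)).trans ?_
      calc ρ * ‖q s - q t‖ ^ 2 ≤ |ρ| * ‖q s - q t‖ ^ 2 := by
            gcongr; exact le_abs_self ρ
        _ ≤ |ρ| * (8 * ‖v - u‖ ^ 2 * (s - t) ^ 2) := by
            gcongr; exact hlip s hs t ht
        _ = |ρ| * (8 * ‖v - u‖ ^ 2) * (s - t) ^ 2 := by ring)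
    have q0 : q 0 = u := by simp [hqdef, hpdef, hu]
    have q1 : q 1 = v := by simp [hqdef, hpdef, hv]
    simp only [q0, q1] at this
    exact this.symm
  intro u v hu hv
  rcases le_total 0 ⟪u, v⟫ with h1 | h1
  · exact main u v hu hv h1
  · have h2 : 0 ≤ ⟪u, -v⟫ := by rw [inner_neg_right]; linarith
    rw [main u (-v) hu (by rw [norm_neg]; exact hv) h2, hneg v hv]

/-- P4: a symmetric compact convex body equal to its pedal body is a ball. -/
lemma ball_of_pedal {D : Set E} (hD : IsCompact D) (hD' : Convex ℝ D) (hne : D.Nonempty)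
    (hsym : ∀ x ∈ D, -x ∈ D)
    (hp : ∀ u, ‖u‖ = 1 → ∀ x ∈ D, (∀ y ∈ D, ⟪u, y⟫ ≤ ⟪u, x⟫) → ⟪u, x⟫ • u ∈ D) :
    ∃ ρ : ℝ, 0 ≤ ρ ∧ D = closedBall 0 ρ := by
  have hmax : ∀ u : E, ∃ x ∈ D, ∀ y ∈ D, ⟪u, y⟫ ≤ ⟪u, x⟫ := by
    intro u
    obtain ⟨x, hx, hx'⟩ := hD.exists_isMaxOn hne (f := fun y => ⟪u, y⟫) (by fun_prop)
    exact ⟨x, hx, fun y hy => hx' hy⟩
  choose X hX1 hX2 using hmax
  obtain ⟨R, hR⟩ := hD.isBounded.subset_closedBall 0
  set h : E → ℝ := fun u => ⟪u, X u⟫ with hh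
  have h0D : (0 : E) ∈ D := by
    obtain ⟨x, hx⟩ := hne
    have := hD' hx (hsym x hx) (by norm_num : (0 : ℝ) ≤ 1 / 2) (by norm_num : (0 : ℝ) ≤ 1 / 2)
      (by norm_num)
    convert this using 1
    module
  have hpos : ∀ u, 0 ≤ h u := by
    intro u
    have := hX2 u 0 h0D
    simpa using this
  have hbound : ∀ u, ‖u‖ = 1 → h u ≤ R := by
    intro u hu
    have h1 : ‖X u‖ ≤ R := by simpa using hR (hX1 u)
    calc h u ≤ ‖u‖ * ‖X u‖ := real_inner_le_norm _ _
      _ ≤ R := by rw [hu, one_mul]; exact h1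
  have hneg : ∀ u, ‖u‖ = 1 → h (-u) = h u := by
    intro u _
    apply le_antisymm
    · have := hX2 u (-(X (-u))) (hsym _ (hX1 _))
      simp only [hh]
      rw [inner_neg_left]
      rw [inner_neg_right] at this
      exact this
    · have := hX2 (-u) (-(X u)) (hsym _ (hX1 _))
      simp only [hh]
      rw [inner_neg_neg] at this
      exact this
  have hped : ∀ u v, ‖u‖ = 1 → ‖v‖ = 1 → h u * ⟪u, v⟫ ≤ h v := by
    intro u v hu _
    have h1 := hp u hu (X u) (hX1 u) (hX2 u)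
    have h2 := hX2 v _ h1
    rw [inner_smul_right, real_inner_comm u v] at h2
    exact h2
  have hconst := pedal_const hbound (fun u _ => hpos u) hneg hped
  by_cases htriv : ∃ u₀ : E, ‖u₀‖ = 1
  · obtain ⟨u₀, hu₀⟩ := htriv
    refine ⟨h u₀, hpos u₀, ?_⟩
    ext x
    rw [mem_closedBall_zero_iff]
    constructor
    · intro hx
      by_cases hx0 : x = 0
      · rw [hx0, norm_zero]; exact hpos u₀
      obtain ⟨u, hu, hxu⟩ := exists_unit hx0
      have h1 := hX2 u x hx
      rw [hconst u₀ u hu₀ hu]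
      calc ‖x‖ = ⟪u, x⟫ := by
            nth_rewrite 2 [hxu]
            rw [inner_smul_right, real_inner_self_eq_norm_sq, hu]; ring
        _ ≤ h u := h1
    · intro hx
      by_cases hx0 : x = 0
      · rw [hx0]; exact h0D
      obtain ⟨u, hu, hxu⟩ := exists_unit hx0
      have h1 := hp u hu (X u) (hX1 u) (hX2 u)
      rw [hconst u₀ u hu₀ hu] at hx
      have hxpos : 0 < ‖x‖ := norm_pos_iff.2 hx0
      have hhpos : 0 < h u := lt_of_lt_of_le hxpos hx
      have h2 : 0 ≤ 1 - ‖x‖ / h u := by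
        rw [sub_nonneg, div_le_one hhpos]; exact hx
      have h3 := hD' h1 h0D (by positivity : 0 ≤ ‖x‖ / h u) h2 (by ring)
      convert h3 using 1
      rw [smul_zero, add_zero, smul_smul]
      have : ‖x‖ / h u * ⟪u, X u⟫ = ‖x‖ := div_mul_cancel₀ _ hhpos.ne'
      rw [this]; exact hxu
  · -- trivial space
    have hz : ∀ x : E, x = 0 := by
      intro x
      by_contra hx
      obtain ⟨u, hu, -⟩ := exists_unit hx
      exact htriv ⟨u, hu⟩
    refine ⟨0, le_rfl, ?_⟩
    ext x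
    rw [hz x]
    simp [h0D]

/-- P5, key step: if the Steiner symmetral of a body of diameter at most `2r` is a ball of
radius `r`, the body is a ball. -/
lemma ball_of_St_ball {e : E} (he : ‖e‖ = 1) {K : Set E} (hK : IsCompact K) (hK' : Convex ℝ K)
    {r : ℝ} (hr : 0 < r) (hD : DD K ⊆ closedBall 0 (2 * r)) {c : E}
    (hSt : St e K = closedBall c r) : ∃ c', K = closedBall c' r := by
  -- the centre lies in the hyperplane
  have hc : ⟪e, c⟫ = 0 := by
    have h1 : c + r • e ∈ St e K := by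
      rw [hSt, mem_closedBall, dist_eq_norm]
      simp [norm_smul, he, abs_of_pos hr]
    have h2 : c - r • e ∈ St e K := by
      rw [hSt, mem_closedBall, dist_eq_norm]
      simp [norm_smul, he, abs_of_pos hr]
    have h1' := rf_mem_St he h1
    have h2' := rf_mem_St he h2
    rw [hSt, mem_closedBall, dist_eq_norm] at h1' h2'
    have e1 : rf e (c + r • e) - c = (-2 * ⟪e, c⟫ - r) • e := by
      rw [rf_add, rf_smul, rf_self he, rf]; module
    have e2 : rf e (c - r • e) - c = (-2 * ⟪e, c⟫ + r) • e := by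
      rw [rf_sub, rf_smul, rf_self he, rf]; module
    rw [e1, norm_smul, he, mul_one, Real.norm_eq_abs, abs_le] at h1'
    rw [e2, norm_smul, he, mul_one, Real.norm_eq_abs, abs_le] at h2'
    linarith [h1'.1, h1'.2, h2'.1, h2'.2]
  have hnorm : ∀ (y : E) (t : ℝ), ⟪e, y⟫ = 0 → ‖y + t • e‖ ^ 2 = ‖y‖ ^ 2 + t ^ 2 := by
    intro y t hy
    rw [norm_add_sq_real, inner_smul_right, real_inner_comm, hy, norm_smul, he,
      Real.norm_eq_abs, mul_one, sq_abs]
    ring
  have hfibSt : ∀ y, ⟪e, y⟫ = 0 → ∀ t : ℝ, (y + t • e ∈ St e K ↔ t ^ 2 ≤ r ^ 2 - ‖y - c‖ ^ 2) := by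
    intro y hy t
    rw [hSt, mem_closedBall, dist_eq_norm]
    have h1 : y + t • e - c = (y - c) + t • e := by abel
    have h2 := hnorm (y - c) t (by rw [inner_sub_right, hy, hc, sub_zero])
    rw [h1]
    constructor
    · intro h
      have : ‖(y - c) + t • e‖ ^ 2 ≤ r ^ 2 := by gcongr
      linarith
    · intro h
      have : ‖(y - c) + t • e‖ ^ 2 ≤ r ^ 2 := by linarith
      exact (sq_le_sq₀ (norm_nonneg _) hr.le).1 this
  -- the fibres of K
  have hfibK : ∀ y, ⟪e, y⟫ = 0 → ‖y - c‖ ≤ r → ∃ m : ℝ, ∀ t : ℝ,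
      (y + t • e ∈ K ↔ |t - m| ≤ Real.sqrt (r ^ 2 - ‖y - c‖ ^ 2)) := by
    intro y hy hyr
    set l := Real.sqrt (r ^ 2 - ‖y - c‖ ^ 2) with hl
    have hnn : 0 ≤ r ^ 2 - ‖y - c‖ ^ 2 := by
      have : ‖y - c‖ ^ 2 ≤ r ^ 2 := by gcongr
      linarith
    have hl2 : l ^ 2 = r ^ 2 - ‖y - c‖ ^ 2 := Real.sq_sqrt hnn
    have hl0 : 0 ≤ l := Real.sqrt_nonneg _
    have hmem : ∀ t : ℝ, (∃ a : ℝ, (t + a) ∈ fib e K y ∧ (a - t) ∈ fib e K y) ↔ |t| ≤ l := by
      intro t
      have h1 := hfibSt y hy t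
      rw [mem_St] at h1
      rw [← hl2] at h1
      rw [← sq_le_sq₀ (abs_nonneg _) hl0, sq_abs, ← h1]
      apply exists_congr
      intro a
      have e1 : y + t • e + a • e = y + (t + a) • e := by module
      have e2 : rf e (y + t • e - a • e) = y + (a - t) • e := by
        have : y + t • e - a • e = y + (t - a) • e := by module
        rw [this, rf_add, rf_of_orthogonal hy, rf_smul, rf_self he]
        module
      rw [e1, e2]
      rfl
    have hFne : (fib e K y).Nonempty := by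
      obtain ⟨a, h1, -⟩ := (hmem 0).2 (by simpa using hl0)
      exact ⟨_, h1⟩
    obtain ⟨a, b, hab, hF⟩ := eq_Icc hFne (isCompact_fib he hK y) (convex_fib hK' y)
    rw [hF] at hmem
    have hba : b - a = 2 * l := by
      apply le_antisymm
      · have := (hmem ((b - a) / 2)).1 ⟨(a + b) / 2, ⟨by linarith, by linarith⟩,
          ⟨by linarith, by linarith⟩⟩
        have h3 := (le_abs_self _).trans this
        linarith
      · obtain ⟨a', h1, h2⟩ := (hmem l).2 (by rw [abs_of_nonneg hl0])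
        rw [mem_Icc] at h1 h2
        linarith
    refine ⟨(a + b) / 2, ?_⟩
    intro t
    rw [← mem_fib, hF, mem_Icc, abs_le]
    constructor
    · rintro ⟨h1, h2⟩; constructor <;> linarith
    · rintro ⟨h1, h2⟩; constructor <;> linarith
  choose! m hm using hfibK
  set l : E → ℝ := fun y => Real.sqrt (r ^ 2 - ‖y - c‖ ^ 2) with hldef
  have hl0 : ∀ y, 0 ≤ l y := fun y => Real.sqrt_nonneg _
  have hl2 : ∀ y, ‖y - c‖ ≤ r → l y ^ 2 = r ^ 2 - ‖y - c‖ ^ 2 := by
    intro y hy
    apply Real.sq_sqrt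
    have : ‖y - c‖ ^ 2 ≤ r ^ 2 := by gcongr
    linarith
  have htop : ∀ y, ⟪e, y⟫ = 0 → ‖y - c‖ ≤ r → y + (m y + l y) • e ∈ K := by
    intro y hy hyr
    rw [hm y hy hyr]
    simp only [add_sub_cancel_left]
    rw [abs_of_nonneg (hl0 y)]
  have hbot : ∀ y, ⟪e, y⟫ = 0 → ‖y - c‖ ≤ r → y + (m y - l y) • e ∈ K := by
    intro y hy hyr
    rw [hm y hy hyr]
    simp only [sub_sub_cancel_left, abs_neg]
    rw [abs_of_nonneg (hl0 y)]
  -- distance bound
  have hdist : ∀ y z, ⟪e, y⟫ = 0 → ‖y - c‖ ≤ r → ⟪e, z⟫ = 0 → ‖z - c‖ ≤ r →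
      ‖y - z‖ ^ 2 + (m y - m z + l y + l z) ^ 2 ≤ 4 * r ^ 2 := by
    intro y z hy hyr hz hzr
    have h1 := hD ⟨_, htop y hy hyr, _, hbot z hz hzr, rfl⟩
    rw [mem_closedBall_zero_iff] at h1
    have e1 : y + (m y + l y) • e - (z + (m z - l z) • e)
        = (y - z) + (m y - m z + l y + l z) • e := by module
    rw [e1] at h1
    have h2 := hnorm (y - z) (m y - m z + l y + l z) (by rw [inner_sub_right, hy, hz, sub_zero])
    rw [← h2]
    calc ‖(y - z) + (m y - m z + l y + l z) • e‖ ^ 2 ≤ (2 * r) ^ 2 := by gcongr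
      _ = 4 * r ^ 2 := by ring
  -- opposite points
  have hopp : ∀ y, ⟪e, y⟫ = 0 → ‖y - c‖ ≤ r → m ((2 : ℝ) • c - y) = m y := by
    have hstar : ∀ y, ⟪e, y⟫ = 0 → ‖y - c‖ ≤ r →
        ⟪e, (2 : ℝ) • c - y⟫ = 0 ∧ ‖(2 : ℝ) • c - y - c‖ = ‖y - c‖ := by
      intro y hy hyr
      constructor
      · rw [inner_sub_right, inner_smul_right, hc, hy]; ring
      · have : (2 : ℝ) • c - y - c = -(y - c) := by module
        rw [this, norm_neg]
    have aux : ∀ y, ⟪e, y⟫ = 0 → ‖y - c‖ ≤ r → m y ≤ m ((2 : ℝ) • c - y) := by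
      intro y hy hyr
      obtain ⟨h1, h2⟩ := hstar y hy hyr
      have h3 := hdist y ((2 : ℝ) • c - y) hy hyr h1 (by rw [h2]; exact hyr)
      have e1 : l ((2 : ℝ) • c - y) = l y := by simp only [hldef]; rw [h2]
      have e2 : ‖y - ((2 : ℝ) • c - y)‖ ^ 2 = 4 * ‖y - c‖ ^ 2 := by
        have : y - ((2 : ℝ) • c - y) = (2 : ℝ) • (y - c) := by module
        rw [this, norm_smul]; norm_num; ring
      rw [e1, e2] at h3
      have h4 := hl2 y hyr
      have h5 : (m y - m ((2 : ℝ) • c - y) + l y + l y) ^ 2 ≤ (2 * l y) ^ 2 := by nlinarith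
      have h6 := (abs_le.1 (abs_le_of_sq_le_sq h5 (by linarith [hl0 y]))).2
      linarith
    intro y hy hyr
    obtain ⟨h1, h2⟩ := hstar y hy hyr
    apply le_antisymm
    · have := aux ((2 : ℝ) • c - y) h1 (by rw [h2]; exact hyr)
      have e1 : (2 : ℝ) • c - ((2 : ℝ) • c - y) = y := by module
      rw [e1] at this
      exact this
    · exact aux y hy hyr
  have hstar : ∀ y, ⟪e, y⟫ = 0 → ‖y - c‖ ≤ r →
      ⟪e, (2 : ℝ) • c - y⟫ = 0 ∧ ‖(2 : ℝ) • c - y - c‖ = ‖y - c‖ := by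
    intro y hy hyr
    constructor
    · rw [inner_sub_right, inner_smul_right, hc, hy]; ring
    · have : (2 : ℝ) • c - y - c = -(y - c) := by module
      rw [this, norm_neg]
  have hquad : ∀ y z, ⟪e, y⟫ = 0 → ‖y - c‖ ≤ r → ⟪e, z⟫ = 0 → ‖z - c‖ ≤ r → ∀ σ, 0 < σ →
      σ ≤ l y + l z → m y - m z ≤ (4 * r ^ 2 / σ ^ 2 + 1) / (2 * σ) * ‖y - z‖ ^ 2 := by
    intro y z hy hyr hz hzr σ hσ hσl
    obtain ⟨h1, h2⟩ := hstar z hz hzr
    have h3 := hdist y ((2 : ℝ) • c - z) hy hyr h1 (by rw [h2]; exact hzr)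
    rw [hopp z hz hzr] at h3
    have e1 : l ((2 : ℝ) • c - z) = l z := by simp only [hldef]; rw [h2]
    rw [e1] at h3
    set a := y - c with ha
    set b := z - c with hb
    have e2 : y - ((2 : ℝ) • c - z) = a + b := by rw [ha, hb]; module
    have e3 : y - z = a - b := by rw [ha, hb]; module
    rw [e2] at h3
    rw [e3]
    have hpar : ‖a + b‖ ^ 2 + ‖a - b‖ ^ 2 = 2 * ‖a‖ ^ 2 + 2 * ‖b‖ ^ 2 := by
      rw [norm_add_sq_real a b, norm_sub_sq_real a b]; ring
    have l1 := hl2 y hyr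
    have l2 := hl2 z hzr
    rw [← ha] at l1
    rw [← hb] at l2
    set S := l y + l z with hS
    set δ := m y - m z with hδ
    have h4 : (δ + S) ^ 2 ≤ S ^ 2 + (l y - l z) ^ 2 + ‖a - b‖ ^ 2 := by
      have : m y - m z + l y + l z = δ + S := by rw [hS, hδ]; ring
      rw [this] at h3
      have : S ^ 2 + (l y - l z) ^ 2 = 2 * (l y) ^ 2 + 2 * (l z) ^ 2 := by rw [hS]; ring
      rw [this, l1, l2]
      linarith
    have h5 : (l y - l z) ^ 2 * S ^ 2 ≤ 4 * r ^ 2 * ‖a - b‖ ^ 2 := by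
      have g1 : (l y - l z) ^ 2 * S ^ 2 = ((l y) ^ 2 - (l z) ^ 2) ^ 2 := by rw [hS]; ring
      rw [g1, l1, l2]
      have g2 : (r ^ 2 - ‖a‖ ^ 2 - (r ^ 2 - ‖b‖ ^ 2)) ^ 2
          = (‖a‖ - ‖b‖) ^ 2 * (‖a‖ + ‖b‖) ^ 2 := by ring
      rw [g2]
      have g3 : (‖a‖ - ‖b‖) ^ 2 ≤ ‖a - b‖ ^ 2 := by
        rw [← sq_abs (‖a‖ - ‖b‖)]
        have := abs_norm_sub_norm_le a b
        gcongr
      have g4 : (‖a‖ + ‖b‖) ^ 2 ≤ (2 * r) ^ 2 := by
        have := norm_nonneg a
        have := norm_nonneg b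
        gcongr
        linarith
      calc (‖a‖ - ‖b‖) ^ 2 * (‖a‖ + ‖b‖) ^ 2 ≤ ‖a - b‖ ^ 2 * (2 * r) ^ 2 := by gcongr
        _ = _ := by ring
    have hSpos : 0 < S := lt_of_lt_of_le hσ hσl
    have h6 : (l y - l z) ^ 2 ≤ 4 * r ^ 2 / σ ^ 2 * ‖a - b‖ ^ 2 := by
      have g1 : (l y - l z) ^ 2 * σ ^ 2 ≤ 4 * r ^ 2 * ‖a - b‖ ^ 2 := by
        refine le_trans ?_ h5
        gcongr
      rw [div_mul_eq_mul_div, le_div_iff₀ (by positivity)]
      exact g1
    have hrhs : 0 ≤ (4 * r ^ 2 / σ ^ 2 + 1) / (2 * σ) * ‖a - b‖ ^ 2 := by positivity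
    rcases le_or_gt δ 0 with hδ0 | hδ0
    · exact hδ0.trans hrhs
    · have h7 : 2 * σ * δ ≤ (4 * r ^ 2 / σ ^ 2 + 1) * ‖a - b‖ ^ 2 := by
        have g1 : 2 * σ * δ ≤ 2 * S * δ := by gcongr
        nlinarith [sq_nonneg δ]
      have h8 : δ ≤ (4 * r ^ 2 / σ ^ 2 + 1) * ‖a - b‖ ^ 2 / (2 * σ) := by
        rw [le_div_iff₀ (by positivity)]; linarith
      calc δ ≤ (4 * r ^ 2 / σ ^ 2 + 1) * ‖a - b‖ ^ 2 / (2 * σ) := h8
        _ = _ := by ring
  have hmconst : ∀ y, ⟪e, y⟫ = 0 → ‖y - c‖ < r → m y = m c := by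
    intro y hy hyr
    have hly : 0 < l y := by
      simp only [hldef]
      apply Real.sqrt_pos.2
      have : ‖y - c‖ ^ 2 < r ^ 2 := by gcongr
      linarith
    set p : ℝ → E := fun t => c + t • (y - c) with hp
    have hpe : ∀ t, ⟪e, p t⟫ = 0 := by
      intro t
      simp only [hp]
      rw [inner_add_right, inner_smul_right, inner_sub_right, hc, hy]; ring
    have hpn : ∀ t ∈ Icc (0 : ℝ) 1, ‖p t - c‖ ≤ ‖y - c‖ := by
      intro t ⟨h0, h1⟩
      have : p t - c = t • (y - c) := by simp only [hp]; abel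
      rw [this, norm_smul, Real.norm_eq_abs, abs_of_nonneg h0]
      exact mul_le_of_le_one_left (norm_nonneg _) h1
    have hpl : ∀ t ∈ Icc (0 : ℝ) 1, l y ≤ l (p t) := by
      intro t ht
      simp only [hldef]
      apply Real.sqrt_le_sqrt
      have := hpn t ht
      gcongr
    have hC := quad_const (φ := fun t => m (p t))
      (C := (4 * r ^ 2 / (2 * l y) ^ 2 + 1) / (2 * (2 * l y)) * ‖y - c‖ ^ 2) (by
      intro s hs t ht
      have e1 : ‖p s - p t‖ ^ 2 = ‖y - c‖ ^ 2 * (s - t) ^ 2 := by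
        have : p s - p t = (s - t) • (y - c) := by simp only [hp]; module
        rw [this, norm_smul, Real.norm_eq_abs, mul_pow, sq_abs]; ring
      have g1 := hquad (p s) (p t) (hpe s) ((hpn s hs).trans hyr.le) (hpe t)
        ((hpn t ht).trans hyr.le) (2 * l y) (by linarith) (by linarith [hpl s hs, hpl t ht])
      have g2 := hquad (p t) (p s) (hpe t) ((hpn t ht).trans hyr.le) (hpe s)
        ((hpn s hs).trans hyr.le) (2 * l y) (by linarith) (by linarith [hpl s hs, hpl t ht])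
      rw [norm_sub_rev] at g2
      rw [e1, ← mul_assoc] at g1 g2
      rw [abs_le]
      constructor <;> linarith)
    have p0 : p 0 = c := by simp [hp]
    have p1 : p 1 = y := by simp [hp]
    simp only [p0, p1] at hC
    exact hC
  -- the open ball is contained in K
  have hsub : closedBall (c + m c • e) r ⊆ K := by
    rw [← closure_ball _ hr.ne']
    apply closure_minimal _ hK.isClosed
    intro x hx
    rw [mem_ball, dist_eq_norm] at hx
    set t := ⟪e, x⟫ with ht
    set y := x - t • e with hy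
    have hye : ⟪e, y⟫ = 0 := by
      rw [hy, inner_sub_right, inner_smul_right, real_inner_self_eq_norm_sq, he, ht]; ring
    have hxy : x = y + t • e := by rw [hy]; abel
    have h1 : x - (c + m c • e) = (y - c) + (t - m c) • e := by rw [hy]; module
    have h2 := hnorm (y - c) (t - m c) (by rw [inner_sub_right, hye, hc, sub_zero])
    rw [← h1] at h2
    have h3 : ‖x - (c + m c • e)‖ ^ 2 < r ^ 2 := by gcongr
    have h4 : ‖y - c‖ < r := by
      have : ‖y - c‖ ^ 2 < r ^ 2 := by nlinarith [sq_nonneg (t - m c)]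
      exact (sq_lt_sq₀ (norm_nonneg _) hr.le).1 this
    rw [hxy, hm y hye h4.le, hmconst y hye h4]
    apply Real.abs_le_sqrt
    linarith
  refine ⟨c + m c • e, ?_⟩
  symm
  have hvol : volume K = volume (closedBall (c + m c • e) r) := by
    rw [← volume_St he hK hK', hSt, Measure.addHaar_closedBall_center volume c r,
      Measure.addHaar_closedBall_center volume (c + m c • e) r]
  apply eq_of_subset_of_volume_le isClosed_closedBall hK hK' _ hsub hvol.le
  refine ⟨c + m c • e, ?_⟩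
  apply interior_mono hsub
  apply ball_subset_interior_closedBall
  exact mem_ball_self hr

/-- P5: equality in the isodiametric inequality. -/
lemma isodiametric_ball {ι : Type*} [Fintype ι] (b : OrthonormalBasis ι ℝ E) {r : ℝ}
    (hr : 0 < r) (s : Finset ι) : ∀ K : Set E, IsCompact K → Convex ℝ K →
    DD K ⊆ closedBall 0 (2 * r) → volume K = volume (closedBall (0 : E) r) →
    (∀ i, i ∉ s → ∀ x ∈ K, rf (b i) x ∈ K) → ∃ c, K = closedBall c r := by
  classical
  induction s using Finset.induction_on with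
  | empty =>
    intro K hK hK' hD hvol hsym
    have hneg : ∀ x ∈ K, -x ∈ K := by
      intro x hx
      have key : ∀ t : Finset ι, x - (2 : ℝ) • ∑ i ∈ t, ⟪b i, x⟫ • b i ∈ K := by
        intro t
        induction t using Finset.induction_on with
        | empty => simpa using hx
        | insert j t hj ih =>
          have h1 := hsym j (by simp) _ ih
          convert h1 using 1
          rw [Finset.sum_insert hj, rf]
          have h2 : ⟪b j, x - (2 : ℝ) • ∑ i ∈ t, ⟪b i, x⟫ • b i⟫ = ⟪b j, x⟫ := by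
            rw [inner_sub_right, inner_smul_right, inner_sum]
            have : ∑ i ∈ t, ⟪b j, ⟪b i, x⟫ • b i⟫ = 0 := by
              apply Finset.sum_eq_zero
              intro i hi
              rw [inner_smul_right, b.inner_eq_zero (by rintro rfl; exact hj hi), mul_zero]
            rw [this]; ring
          rw [h2]
          module
      have h1 := key Finset.univ
      rw [b.sum_repr'] at h1
      convert h1 using 1
      module
    refine ⟨0, ?_⟩
    have hsub : K ⊆ closedBall 0 r := by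
      intro x hx
      have h1 := hD ⟨x, hx, -x, hneg x hx, rfl⟩
      rw [mem_closedBall_zero_iff] at h1 ⊢
      have : x - -x = (2 : ℝ) • x := by module
      rw [this, norm_smul] at h1
      norm_num at h1
      linarith
    refine eq_of_subset_of_volume_le hK.isClosed (isCompact_closedBall _ _)
      (convex_closedBall _ _) ?_ hsub hvol.ge
    exact ⟨0, ball_subset_interior_closedBall (mem_ball_self hr)⟩
  | insert j s hj ih =>
    intro K hK hK' hD hvol hsym
    have hbj : ‖b j‖ = 1 := b.norm_eq_one j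
    obtain ⟨c, hc⟩ := ih (St (b j) K) (isCompact_St hbj hK) (convex_St hK')
      (by
        refine DD_St_subset.trans ((St_mono hD).trans ?_)
        exact St_subset_ball hbj subset_rfl)
      ((volume_St hbj hK hK').trans hvol) (by
        intro i hi x hx
        by_cases hij : i = j
        · subst hij; exact rf_mem_St hbj hx
        · apply rf_St_of_orthogonal (b.inner_eq_zero (fun h => hij h.symm)) _ hx
          exact hsym i (by simp [hij, hi]))
    exact ball_of_St_ball hbj hK hK' hr hD hc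

end Pool.Agent.H62.MP036
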