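import Pool.Agent.H62.MP036.Avg

set_option linter.unusedSectionVars false

open MeasureTheory Set Metric
open scoped RealInnerProductSpace ENNReal

namespace Pool.Agent.H62.MP036

variable {E : Type*} [NormedAddCommGroup E] [InnerProductSpace ℝ E] [FiniteDimensional ℝ E]
  [MeasurableSpace E] [BorelSpace E]

/-- The Minkowski sum `K + [0,w]`. -/
def sweep (K : Set E) (w : E) : Set E := {z | ∃ s ∈ Icc (0 : ℝ) 1, z - s • w ∈ K}

lemma sweep_eq_image (K : Set E) (w : E) :
    sweep K w = (fun p : E × ℝ => p.1 + p.2 • w) '' (K ×ˢ Icc (0 : ℝ) 1) := by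
  ext z
  constructor
  · rintro ⟨s, hs, hz⟩
    exact ⟨(z - s • w, s), ⟨hz, hs⟩, by simp⟩
  · rintro ⟨⟨x, s⟩, ⟨hx, hs⟩, rfl⟩
    exact ⟨s, hs, by simpa using hx⟩

lemma isCompact_sweep {K : Set E} (hK : IsCompact K) (w : E) : IsCompact (sweep K w) := by
  rw [sweep_eq_image]
  exact (hK.prod isCompact_Icc).image (by fun_prop)

lemma convex_sweep {K : Set E} (hK : Convex ℝ K) (w : E) : Convex ℝ (sweep K w) := by
  rintro z₁ ⟨s₁, hs₁, h1⟩ z₂ ⟨s₂, hs₂, h2⟩ a b ha hb hab
  refine ⟨a * s₁ + b * s₂, ⟨?_, ?_⟩, ?_⟩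
  · have := hs₁.1; have := hs₂.1; positivity
  · have := hs₁.2; have := hs₂.2
    nlinarith
  · convert hK h1 h2 ha hb hab using 1
    module

lemma subset_sweep (K : Set E) (w : E) : K ⊆ sweep K w := by
  intro x hx
  exact ⟨0, by simp, by simpa using hx⟩

lemma add_mem_sweep {K : Set E} (w : E) {x : E} (hx : x ∈ K) : x + w ∈ sweep K w :=
  ⟨1, by simp, by simpa using hx⟩

lemma sweep_subset {K D : Set E} (w : E) (hD : Convex ℝ D) (h1 : K ⊆ D)
    (h2 : ∀ x ∈ K, x + w ∈ D) : sweep K w ⊆ D := by
  rintro z ⟨s, ⟨hs0, hs1⟩, hz⟩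
  have := hD (h1 hz) (h2 _ hz) (by linarith : (0 : ℝ) ≤ 1 - s) hs0 (by ring)
  convert this using 1
  module

lemma sweep_mono {K L : Set E} (h : K ⊆ L) (w : E) : sweep K w ⊆ sweep L w := by
  rintro z ⟨s, hs, hz⟩
  exact ⟨s, hs, h hz⟩

/-- In a convex set symmetric under `rf u`, a point can be moved along `u` towards the
hyperplane. -/
lemma mem_of_symm {A : Set E} (hA : Convex ℝ A) {u : E} (hu : ‖u‖ = 1)
    (hs : ∀ x ∈ A, rf u x ∈ A) {x : E} (hx : x ∈ A) {c : ℝ} (hc : |⟪u, x⟫ + c| ≤ |⟪u, x⟫|) :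
    x + c • u ∈ A := by
  set h := ⟪u, x⟫ with hh
  by_cases h0 : h = 0
  · have : c = 0 := by
      rw [h0] at hc; simpa using hc
    simpa [this] using hx
  -- x + c u = (1 - s) x + s (rf u x), with s = - c / (2 h)
  set s := - c / (2 * h) with hsdef
  have hs0 : 0 ≤ s := by
    rw [hsdef]
    rcases lt_or_gt_of_ne h0 with hneg | hpos
    · rw [abs_of_neg hneg, abs_le] at hc
      apply div_nonneg_of_nonpos <;> linarith
    · rw [abs_of_pos hpos, abs_le] at hc
      apply div_nonneg <;> linarith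
  have hs1 : s ≤ 1 := by
    rw [hsdef]
    rcases lt_or_gt_of_ne h0 with hneg | hpos
    · rw [abs_of_neg hneg, abs_le] at hc
      rw [div_le_iff_of_neg (by linarith)]; linarith
    · rw [abs_of_pos hpos, abs_le] at hc
      rw [div_le_iff₀ (by linarith)]; linarith
  have key := hA hx (hs x hx) (by linarith : (0 : ℝ) ≤ 1 - s) hs0 (by ring)
  convert key using 1
  rw [rf, ← hh]
  have : s * (2 * h) = - c := by rw [hsdef]; field_simp
  have h3 : (1 - s) • x + s • (x - (2 * h) • u) = x + (-(s * (2 * h))) • u := by module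
  rw [h3, this]; simp

/-- (b) Steiner symmetrization of the swept set, in a direction orthogonal to the sweep. -/
lemma St_sweep_subset {A : Set E} (hA : Convex ℝ A) {u y : E} (hu : ‖u‖ = 1)
    (huy : ⟪u, y⟫ = 0) (hs : ∀ x ∈ A, rf u x ∈ A) {l : ℝ} (hl : 0 ≤ l) :
    St y (sweep A (l • u)) ⊆ sweep (St y A) (l • u) := by
  intro z hz
  obtain ⟨a, ⟨s₁, hs₁, h1⟩, ⟨s₂, hs₂, h2⟩⟩ := mem_St.1 hz
  have hyu : ⟪y, u⟫ = 0 := by rw [real_inner_comm]; exact huy
  rcases hl.eq_or_lt with hl0 | hl0
  · subst hl0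
    refine ⟨0, by simp, mem_St.2 ⟨a, ?_, ?_⟩⟩
    · simpa using h1
    · simpa using h2
  set t := ⟪u, z⟫ with ht
  -- the common parameter
  set s : ℝ := max 0 (min 1 (t / l)) with hsdef
  have hs01 : s ∈ Icc (0 : ℝ) 1 := by
    constructor
    · exact le_max_left _ _
    · exact max_le (by norm_num) (min_le_left _ _)
  -- key fact on the heights
  have hkey : ∀ s' ∈ Icc (0 : ℝ) 1, |t - s * l| ≤ |t - s' * l| := by
    intro s' ⟨h0, h1'⟩
    rcases lt_or_ge t 0 with htneg | htpos
    · have : s = 0 := by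
        rw [hsdef]
        apply max_eq_left
        exact (min_le_right _ _).trans (div_nonpos_of_nonpos_of_nonneg htneg.le hl)
      rw [this, zero_mul, sub_zero, abs_of_neg htneg]
      rw [abs_of_neg (by nlinarith)]
      nlinarith
    · rcases le_or_gt t l with htl | htl
      · have : s = t / l := by
          rw [hsdef, min_eq_right, max_eq_right]
          · positivity
          · rw [div_le_one hl0]; exact htl
        rw [this, div_mul_cancel₀ _ hl0.ne', sub_self, abs_zero]
        positivity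
      · have : s = 1 := by
          rw [hsdef, min_eq_left, max_eq_right]
          · norm_num
          · rw [le_div_iff₀ hl0]; linarith
        rw [this, one_mul, abs_of_pos (by linarith), abs_of_pos (by nlinarith)]
        nlinarith
  refine ⟨s, hs01, mem_St.2 ⟨a, ?_, ?_⟩⟩
  · have hin : ⟪u, z + a • y - s₁ • l • u⟫ = t - s₁ * l := by
      simp [inner_add_right, inner_sub_right, inner_smul_right, huy, hu, ht]
    have := mem_of_symm hA hu hs h1 (c := (s₁ - s) * l) (by
      rw [hin]
      have : t - s₁ * l + (s₁ - s) * l = t - s * l := by ring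
      rw [this]
      exact hkey s₁ hs₁)
    convert this using 1
    module
  · have e1 : ⟪u, rf y (z - a • y)⟫ = t := by
      simp only [rf, inner_sub_right, inner_smul_right, huy, ht]
      ring
    have hin : ⟪u, rf y (z - a • y) - s₂ • l • u⟫ = t - s₂ * l := by
      rw [inner_sub_right, e1]
      simp [inner_smul_right, hu]
    have := mem_of_symm hA hu hs h2 (c := (s₂ - s) * l) (by
      rw [hin]
      have : t - s₂ * l + (s₂ - s) * l = t - s * l := by ring
      rw [this]
      exact hkey s₂ hs₂)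
    convert this using 1
    have e2 : z - s • l • u - a • y = (z - a • y) - (s * l) • u := by module
    rw [e2, rf_sub, rf_smul, rf_of_orthogonal hyu]
    module

lemma volume_sweep_le_sweep_St {A : Set E} (hA' : IsCompact A) (hA : Convex ℝ A) {u y : E}
    (hu : ‖u‖ = 1) (hy : ‖y‖ = 1)
    (huy : ⟪u, y⟫ = 0) (hs : ∀ x ∈ A, rf u x ∈ A) {l : ℝ} (hl : 0 ≤ l) :
    volume (sweep A (l • u)) ≤ volume (sweep (St y A) (l • u)) := by
  rw [← volume_St hy (isCompact_sweep hA' _) (convex_sweep hA _)]
  exact measure_mono (St_sweep_subset hA hu huy hs hl)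

/-- (a) Steiner symmetrization in the direction of the sweep. -/
lemma volume_sweep_le_sweep_St_self {K : Set E} (hK' : IsCompact K) (hK : Convex ℝ K) {u : E}
    (hu : ‖u‖ = 1) (l : ℝ) :
    volume (sweep K (l • u)) ≤ volume (sweep (St u K) (l • u)) := by
  have hc : IsCompact ((fun x => rf u x + l • u) ⁻¹' sweep K (l • u)) := by
    have h1 : (fun x => rf u x + l • u) ⁻¹' sweep K (l • u)
        = rf u ⁻¹' ((fun x => x + l • u) ⁻¹' sweep K (l • u)) := rfl
    rw [h1]
    apply preimage_rf_isCompact hu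
    have h2 : (fun x => x + l • u) ⁻¹' sweep K (l • u)
        = (fun x => x - l • u) '' sweep K (l • u) := by
      ext x
      constructor
      · intro hx; exact ⟨x + l • u, hx, by simp⟩
      · rintro ⟨y, hy, rfl⟩; simpa using hy
    rw [h2]
    exact (isCompact_sweep hK' _).image (by fun_prop)
  rw [← volume_avg_refl hu (isCompact_sweep hK' (l • u)) (convex_sweep hK _) l
    (Q := (fun x => rf u x + l • u) ⁻¹' sweep K (l • u)) (fun x => Iff.rfl) hc]
  apply measure_mono
  rintro z ⟨a, ⟨s₁, hs₁, h1⟩, ⟨s₂, hs₂, h2⟩⟩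
  refine ⟨(s₁ + 1 - s₂) / 2, ⟨by linarith [hs₁.1, hs₂.2], by linarith [hs₁.2, hs₂.1]⟩,
    mem_St.2 ⟨a - s₁ * l + (s₁ + 1 - s₂) / 2 * l, ?_, ?_⟩⟩
  · convert h1 using 1
    module
  · convert h2 using 1
    simp only [rf_sub, rf_smul, rf_self hu]
    module

/-- reflection about a subspace, after enlarging it by one orthogonal direction -/
lemma reflection_sup {W W' : Submodule ℝ E} {y : E} (hW' : W' = W ⊔ Submodule.span ℝ {y})
    (hy : ‖y‖ = 1) (hyW : y ∈ Wᗮ) (x : E) :
    W.reflection x = rf y (W'.reflection x) := by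
  subst hW'
  have hyW' : ∀ w ∈ W, ⟪w, y⟫ = 0 := fun w hw => (Submodule.mem_orthogonal _ _).1 hyW w hw
  have hproj : (W ⊔ Submodule.span ℝ {y}).starProjection x
      = W.starProjection x + ⟪y, x⟫ • y := by
    apply Submodule.eq_starProjection_of_mem_of_inner_eq_zero
    · apply Submodule.add_mem_sup
      · exact Submodule.starProjection_apply_mem _ _
      · exact Submodule.smul_mem _ _ (Submodule.mem_span_singleton_self y)
    · intro w hw
      obtain ⟨w₁, hw₁, w₂, hw₂, rfl⟩ := Submodule.mem_sup.1 hw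
      obtain ⟨c, rfl⟩ := Submodule.mem_span_singleton.1 hw₂
      have h1 : ⟪x - W.starProjection x, w₁⟫ = 0 := Submodule.starProjection_inner_eq_zero _ _ hw₁
      have h2 : ⟪y, w₁⟫ = 0 := by rw [real_inner_comm]; exact hyW' w₁ hw₁
      have h3 : ⟪W.starProjection x, y⟫ = 0 := hyW' _ (Submodule.starProjection_apply_mem _ _)
      have h4 : x - (W.starProjection x + ⟪y, x⟫ • y) = (x - W.starProjection x) - ⟪y, x⟫ • y := by
        abel
      rw [h4, inner_add_right, inner_sub_left, h1, inner_smul_left, h2, inner_sub_left,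
        inner_sub_left, inner_smul_right, inner_smul_right, h3, inner_smul_left, inner_smul_right,
        real_inner_self_eq_norm_sq, hy, real_inner_comm x y]
      simp [mul_comm]
  rw [Submodule.reflection_apply, Submodule.reflection_apply, hproj]
  have h3 : ⟪y, W.starProjection x⟫ = 0 := by
    rw [real_inner_comm]; exact hyW' _ (Submodule.starProjection_apply_mem _ _)
  simp only [rf, inner_sub_right, inner_smul_right, inner_add_right, two_smul, h3,
    real_inner_self_eq_norm_sq, hy]
  module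

lemma reflection_sup' {W W' : Submodule ℝ E} {y : E} (hW' : W' = W ⊔ Submodule.span ℝ {y})
    (hy : ‖y‖ = 1) (hyW : y ∈ Wᗮ) (x : E) :
    W.reflection (rf y x) = W'.reflection x := by
  have h1 : W.reflection y = -y := Submodule.reflection_mem_subspace_orthogonalComplement_eq_neg hyW
  have h2 : W'.reflection y = y := by
    apply Submodule.reflection_mem_subspace_eq_self
    rw [hW']
    exact Submodule.mem_sup_right (Submodule.mem_span_singleton_self y)
  rw [rf, map_sub, map_smul, h1, reflection_sup hW' hy hyW x]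
  rw [rf]
  have h3 : ⟪y, W'.reflection x⟫ = ⟪y, x⟫ := by
    nth_rewrite 1 [← h2]
    rw [LinearIsometryEquiv.inner_map_map]
  rw [h3]
  module

lemma stepA_aux (W : Submodule ℝ E) : ∀ {u : E}, ‖u‖ = 1 → u ∈ W → ∀ {l : ℝ}, 0 ≤ l →
    ∀ {A : Set E}, IsCompact A → Convex ℝ A → (∀ x ∈ A, rf u x ∈ A) →
    ∀ {D : Set E}, IsCompact D → Convex ℝ D → A ⊆ D →
    (∀ x ∈ A, W.reflection x + l • u ∈ D) → volume (sweep A (l • u)) ≤ volume D := by
  induction W using WellFoundedGT.induction with
  | _ W ih =>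
  intro u hu huW l hl A hA hA' hs D hD hD' h1 h2
  by_cases hW : W = ⊤
  · subst hW
    apply measure_mono
    apply sweep_subset _ hD' h1
    intro x hx
    have := h2 x hx
    rwa [Submodule.reflection_mem_subspace_eq_self Submodule.mem_top] at this
  · have hne : Wᗮ ≠ ⊥ := by
      intro h
      exact hW ((Submodule.orthogonal_eq_bot_iff).1 h)
    obtain ⟨y₀, hy₀, hy₀'⟩ := Submodule.exists_mem_ne_zero_of_ne_bot hne
    set y := (‖y₀‖⁻¹ : ℝ) • y₀ with hydef
    have hy : ‖y‖ = 1 := by
      rw [hydef, norm_smul, norm_inv, norm_norm, inv_mul_cancel₀]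
      exact norm_ne_zero_iff.2 hy₀'
    have hyW : y ∈ Wᗮ := Submodule.smul_mem _ _ hy₀
    clear_value y
    have huy : ⟪u, y⟫ = 0 := (Submodule.mem_orthogonal _ _).1 hyW u huW
    have hyu : ⟪y, u⟫ = 0 := by rw [real_inner_comm]; exact huy
    set W' := W ⊔ Submodule.span ℝ {y} with hW'
    have hlt : W < W' := by
      refine lt_of_le_of_ne le_sup_left ?_
      intro h
      have hyin : y ∈ W := by
        rw [h]; exact Submodule.mem_sup_right (Submodule.mem_span_singleton_self y)
      have : ⟪y, y⟫ = 0 := (Submodule.mem_orthogonal _ _).1 hyW y hyin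
      rw [real_inner_self_eq_norm_sq, hy] at this
      norm_num at this
    have hyW'mem : y ∈ W' := Submodule.mem_sup_right (Submodule.mem_span_singleton_self y)
    have hrefy : W'.reflection y = y := Submodule.reflection_mem_subspace_eq_self hyW'mem
    have key := ih W' hlt hu (Submodule.mem_sup_left huW) hl (A := St y A) (isCompact_St hy hA)
      (convex_St hA') (fun x hx => rf_St_of_orthogonal hyu hs hx) (D := St y D)
      (isCompact_St hy hD) (convex_St hD') (St_mono h1) (by
        intro x hx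
        obtain ⟨a, ha1, ha2⟩ := mem_St.1 hx
        refine mem_St.2 ⟨-a, ?_, ?_⟩
        · have := h2 _ ha2
          rw [reflection_sup' hW' hy hyW, map_sub, map_smul, hrefy] at this
          convert this using 1
          module
        · have := h2 _ ha1
          rw [reflection_sup hW' hy hyW, map_add, map_smul, hrefy] at this
          convert this using 1
          simp only [rf_sub, rf_add, rf_smul, rf_of_orthogonal hyu, rf_self hy]
          module)
    calc volume (sweep A (l • u)) ≤ volume (sweep (St y A) (l • u)) :=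
          volume_sweep_le_sweep_St hA hA' hu hy huy hs hl
      _ ≤ volume (St y D) := key
      _ = volume D := volume_St hy hD hD'

/-- Step A, in centred form. -/
theorem stepA {K : Set E} (hK : IsCompact K) (hK' : Convex ℝ K) {L₀ : Submodule ℝ E} {u : E}
    (hu : ‖u‖ = 1) (huL : u ∈ L₀ᗮ) {l : ℝ} (hl : 0 ≤ l) {C₁ C₂ : Set E} (hC₁ : IsCompact C₁)
    (hC₁' : Convex ℝ C₁) (hC₂ : IsCompact C₂) (hC₂' : Convex ℝ C₂) (h1 : K ⊆ C₁)
    (h2 : ∀ x ∈ K, L₀.reflection x + l • u ∈ C₁) (h3 : K ⊆ C₂)
    (h4 : ∀ x ∈ K, L₀.reflection x - l • u ∈ C₂) :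
    volume (sweep K (l • u)) ≤ (volume C₁ + volume C₂) / 2 := by
  set W := L₀ ⊔ Submodule.span ℝ {u} with hW
  have huW : u ∈ W := Submodule.mem_sup_right (Submodule.mem_span_singleton_self u)
  have hrefu : W.reflection u = u := Submodule.reflection_mem_subspace_eq_self huW
  have key := stepA_aux W hu huW hl (A := St u K) (isCompact_St hu hK) (convex_St hK')
    (fun x hx => rf_mem_St hu hx) (D := avg u C₁ (rf u ⁻¹' C₂))
    (isCompact_avg hu hC₁ (preimage_rf_isCompact hu hC₂))
    (convex_avg hC₁' (preimage_rf_convex hC₂')) (by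
      intro x hx
      obtain ⟨a, ha1, ha2⟩ := mem_St.1 hx
      exact ⟨a, h1 ha1, h3 ha2⟩) (by
      intro x hx
      obtain ⟨a, ha1, ha2⟩ := mem_St.1 hx
      refine ⟨-a, ?_, ?_⟩
      · have := h2 _ ha2
        rw [reflection_sup' hW hu huL, map_sub, map_smul, hrefu] at this
        convert this using 1
        module
      · have := h4 _ ha1
        rw [reflection_sup hW hu huL, map_add, map_smul, hrefu] at this
        rw [mem_preimage]
        convert this using 1
        simp only [rf_sub, rf_add, rf_smul, rf_self hu]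
        module)
  calc volume (sweep K (l • u)) ≤ volume (sweep (St u K) (l • u)) :=
        volume_sweep_le_sweep_St_self hK hK' hu l
    _ ≤ volume (avg u C₁ (rf u ⁻¹' C₂)) := key
    _ ≤ (volume C₁ + volume (rf u ⁻¹' C₂)) / 2 :=
        volume_avg_le hu hC₁ hC₁' (preimage_rf_isCompact hu hC₂) (preimage_rf_convex hC₂')
    _ = (volume C₁ + volume C₂) / 2 := by rw [volume_preimage_rf hu hC₂.measurableSet]

end Pool.Agent.H62.MP036
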