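import Pool.Agent.H62.MP036.Conv

set_option linter.unusedSectionVars false

open MeasureTheory Set Metric
open scoped RealInnerProductSpace ENNReal

namespace Pool.Agent.H62.MP036

variable {E : Type*} [NormedAddCommGroup E] [InnerProductSpace ℝ E] [FiniteDimensional ℝ E]
  [MeasurableSpace E] [BorelSpace E]

/-- `(d-1)`-volume of the projection of `K` orthogonal to `u`, computed in a slab. -/
noncomputable def NN (u : E) (K : Set E) : ℝ≥0∞ :=
  ∫⁻ x in slab u, indicator {x | (fib u K x).Nonempty} 1 x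

lemma volume_fib_sweep {u : E} (hu : ‖u‖ = 1) {K : Set E} (hK : IsCompact K) (hK' : Convex ℝ K)
    {l : ℝ} (hl : 0 ≤ l) (x : E) :
    volume (fib u (sweep K (l • u)) x)
      = volume (fib u K x) + ENNReal.ofReal l * indicator {x | (fib u K x).Nonempty} 1 x := by
  have hfib : fib u (sweep K (l • u)) x = {t | ∃ s ∈ Icc (0 : ℝ) 1, t - s * l ∈ fib u K x} := by
    ext t
    simp only [mem_fib, sweep, mem_setOf_eq]
    constructor
    · rintro ⟨s, hs, h⟩
      exact ⟨s, hs, by convert h using 1; module⟩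
    · rintro ⟨s, hs, h⟩
      exact ⟨s, hs, by convert h using 1; module⟩
  rw [hfib]
  rcases (fib u K x).eq_empty_or_nonempty with h | h
  · have h1 : {t : ℝ | ∃ s ∈ Icc (0 : ℝ) 1, t - s * l ∈ fib u K x} = ∅ := by
      ext t; simp [h]
    rw [h1, h, indicator_of_notMem (by simp [h])]
    simp
  · rw [indicator_of_mem (by exact h)]
    obtain ⟨a, b, hab, hF⟩ := eq_Icc h (isCompact_fib hu hK x) (convex_fib hK' x)
    have h1 : {t : ℝ | ∃ s ∈ Icc (0 : ℝ) 1, t - s * l ∈ fib u K x} = Icc a (b + l) := by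
      rw [hF]
      ext t
      simp only [mem_setOf_eq, mem_Icc]
      constructor
      · rintro ⟨s, ⟨h1, h2⟩, ⟨h3, h4⟩⟩
        constructor <;> nlinarith
      · rintro ⟨h1, h2⟩
        rcases hl.eq_or_lt with h0 | h0
        · subst h0
          exact ⟨0, by norm_num, by constructor <;> linarith⟩
        · rcases le_or_gt t b with h3 | h3
          · exact ⟨0, by norm_num, by constructor <;> linarith⟩
          · refine ⟨(t - b) / l, ⟨by apply div_nonneg <;> linarith, ?_⟩, ?_, ?_⟩
            · rw [div_le_one h0]; linarith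
            · rw [div_mul_cancel₀ _ h0.ne']; linarith
            · rw [div_mul_cancel₀ _ h0.ne']; linarith
    rw [h1, hF, Real.volume_Icc, Real.volume_Icc, Pi.one_apply, mul_one,
      ← ENNReal.ofReal_add (by linarith) hl]
    congr 1
    ring

lemma volume_sweep {u : E} (hu : ‖u‖ = 1) {K : Set E} (hK : IsCompact K) (hK' : Convex ℝ K)
    {l : ℝ} (hl : 0 ≤ l) :
    volume (sweep K (l • u)) = volume K + ENNReal.ofReal l * NN u K := by
  rw [volume_fiber hu (isCompact_sweep hK _).measurableSet, volume_fiber hu hK.measurableSet]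
  simp_rw [volume_fib_sweep hu hK hK' hl]
  rw [lintegral_add_left (measurable_len hK.measurableSet),
    lintegral_const_mul' _ _ ENNReal.ofReal_ne_top]
  rfl

lemma NN_ne_top {u : E} (hu : ‖u‖ = 1) {K : Set E} (hK : IsCompact K) (hK' : Convex ℝ K) :
    NN u K ≠ ∞ := by
  have h := volume_sweep hu hK hK' (zero_le_one)
  have h2 : volume (sweep K ((1 : ℝ) • u)) ≠ ∞ := (isCompact_sweep hK _).measure_ne_top
  rw [h] at h2
  intro h3
  apply h2
  rw [h3]
  simp

/-- Volume increase of the sweep (support function of the projection body). -/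
noncomputable def gg (K : Set E) (w : E) : ℝ := volume.real (sweep K w) - volume.real K

lemma sweep_zero (K : Set E) : sweep K 0 = K := by
  ext z
  constructor
  · rintro ⟨s, -, h⟩; simpa using h
  · intro h; exact subset_sweep K 0 h

lemma gg_zero (K : Set E) : gg K 0 = 0 := by
  rw [gg, sweep_zero, sub_self]

lemma gg_smul_unit {u : E} (hu : ‖u‖ = 1) {K : Set E} (hK : IsCompact K) (hK' : Convex ℝ K)
    {l : ℝ} (hl : 0 ≤ l) : gg K (l • u) = l * (NN u K).toReal := by
  rw [gg, Measure.real, volume_sweep hu hK hK' hl,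
    ENNReal.toReal_add hK.measure_ne_top (ENNReal.mul_ne_top ENNReal.ofReal_ne_top
      (NN_ne_top hu hK hK')), ENNReal.toReal_mul, ENNReal.toReal_ofReal hl, Measure.real]
  ring

lemma exists_unit {w : E} (hw : w ≠ 0) : ∃ u : E, ‖u‖ = 1 ∧ w = ‖w‖ • u := by
  refine ⟨(‖w‖⁻¹ : ℝ) • w, ?_, ?_⟩
  · rw [norm_smul, norm_inv, norm_norm, inv_mul_cancel₀ (norm_ne_zero_iff.2 hw)]
  · rw [smul_smul, mul_inv_cancel₀ (norm_ne_zero_iff.2 hw), one_smul]

lemma gg_smul {K : Set E} (hK : IsCompact K) (hK' : Convex ℝ K) {s : ℝ} (hs : 0 ≤ s) (w : E) :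
    gg K (s • w) = s * gg K w := by
  by_cases hw : w = 0
  · simp [hw, gg_zero]
  obtain ⟨u, hu, hwu⟩ := exists_unit hw
  rw [hwu, smul_smul, gg_smul_unit hu hK hK' (by positivity),
    gg_smul_unit hu hK hK' (by positivity)]
  ring

lemma gg_nonneg {K : Set E} (hK : IsCompact K) (w : E) : 0 ≤ gg K w := by
  rw [gg, sub_nonneg]
  exact measureReal_mono (subset_sweep K w) (isCompact_sweep hK _).measure_ne_top

/-- midpoint inequality along a direction -/
lemma gg_mid {e : E} (he : ‖e‖ = 1) {K : Set E} (hK : IsCompact K) (hK' : Convex ℝ K) (z : E)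
    (a : ℝ) : gg K z ≤ (gg K (z + a • e) + gg K (z - a • e)) / 2 := by
  have hsub : sweep K z ⊆ avg e (sweep K (z + a • e)) (sweep K (z - a • e)) := by
    apply sweep_subset _ (convex_avg (convex_sweep hK' _) (convex_sweep hK' _))
    · intro x hx
      exact ⟨0, by simpa using subset_sweep _ _ hx, by simpa using subset_sweep _ _ hx⟩
    · intro x hx
      refine ⟨a, ?_, ?_⟩
      · convert add_mem_sweep (z + a • e) hx using 1; abel
      · convert add_mem_sweep (z - a • e) hx using 1; abel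
  have h1 := (measure_mono hsub).trans (volume_avg_le he (isCompact_sweep hK _)
    (convex_sweep hK' _) (isCompact_sweep hK _) (convex_sweep hK' _))
  have h2 := ENNReal.toReal_mono (by
    apply ENNReal.div_ne_top _ (by norm_num)
    exact ENNReal.add_ne_top.2 ⟨(isCompact_sweep hK _).measure_ne_top,
      (isCompact_sweep hK _).measure_ne_top⟩) h1
  rw [ENNReal.toReal_div, ENNReal.toReal_add (isCompact_sweep hK _).measure_ne_top
    (isCompact_sweep hK _).measure_ne_top] at h2
  simp only [ENNReal.toReal_ofNat] at h2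
  simp only [gg, Measure.real]
  linarith

lemma gg_add {K : Set E} (hK : IsCompact K) (hK' : Convex ℝ K) (w₁ w₂ : E) :
    gg K (w₁ + w₂) ≤ gg K w₁ + gg K w₂ := by
  have h2 : gg K (w₁ + w₂) = 2 * gg K ((1 / 2 : ℝ) • (w₁ + w₂)) := by
    rw [gg_smul hK hK' (by norm_num)]; ring
  rw [h2]
  by_cases h : w₁ - w₂ = 0
  · have : w₁ = w₂ := sub_eq_zero.1 h
    subst this
    have : (1 / 2 : ℝ) • (w₁ + w₁) = w₁ := by module
    rw [this]; linarith
  obtain ⟨e, he, hwe⟩ := exists_unit h
  have := gg_mid he hK hK' ((1 / 2 : ℝ) • (w₁ + w₂)) (‖w₁ - w₂‖ / 2)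
  have e1 : (1 / 2 : ℝ) • (w₁ + w₂) + (‖w₁ - w₂‖ / 2) • e = w₁ := by
    have : (‖w₁ - w₂‖ / 2) • e = (1 / 2 : ℝ) • (w₁ - w₂) := by
      nth_rewrite 2 [hwe]; module
    rw [this]; module
  have e2 : (1 / 2 : ℝ) • (w₁ + w₂) - (‖w₁ - w₂‖ / 2) • e = w₂ := by
    have : (‖w₁ - w₂‖ / 2) • e = (1 / 2 : ℝ) • (w₁ - w₂) := by
      nth_rewrite 2 [hwe]; module
    rw [this]; module
  rw [e1, e2] at this
  linarith

lemma gg_convexOn {K : Set E} (hK : IsCompact K) (hK' : Convex ℝ K) :
    ConvexOn ℝ univ (gg K) := by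
  refine ⟨convex_univ, ?_⟩
  intro x _ y _ a b ha hb _
  calc gg K (a • x + b • y) ≤ gg K (a • x) + gg K (b • y) := gg_add hK hK' _ _
    _ = a • gg K x + b • gg K y := by rw [gg_smul hK hK' ha, gg_smul hK hK' hb]; rfl

lemma gg_continuous {K : Set E} (hK : IsCompact K) (hK' : Convex ℝ K) :
    Continuous (gg K) := by
  have := (gg_convexOn hK hK').continuousOn isOpen_univ
  exact continuousOn_univ.1 this

lemma gg_neg {K : Set E} (w : E) : gg K (-w) = gg K w := by
  have h : sweep K (-w) = (fun x => x + w) ⁻¹' sweep K w := by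
    ext z
    constructor
    · rintro ⟨s, hs, h⟩
      refine ⟨1 - s, ⟨by linarith [hs.2], by linarith [hs.1]⟩, ?_⟩
      convert h using 1; module
    · rintro ⟨s, hs, h⟩
      refine ⟨1 - s, ⟨by linarith [hs.2], by linarith [hs.1]⟩, ?_⟩
      convert h using 1; module
  simp only [gg, h, Measure.real, measure_preimage_add_right]

/-- Steiner symmetrization and the projection body. -/
lemma gg_St {e : E} (he : ‖e‖ = 1) {K : Set E} (hK : IsCompact K) (hK' : Convex ℝ K) (z : E)
    (a : ℝ) : gg (St e K) z ≤ (gg K (z + a • e) + gg K (rf e (z - a • e))) / 2 := by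
  have hsub : sweep (St e K) z
      ⊆ avg e (sweep K (z + a • e)) (rf e ⁻¹' sweep K (rf e (z - a • e))) := by
    apply sweep_subset _ (convex_avg (convex_sweep hK' _) (preimage_rf_convex (convex_sweep hK' _)))
    · intro x hx
      obtain ⟨b, h1, h2⟩ := mem_St.1 hx
      exact ⟨b, subset_sweep _ _ h1, subset_sweep _ _ h2⟩
    · intro x hx
      obtain ⟨b, h1, h2⟩ := mem_St.1 hx
      refine ⟨a + b, ?_, ?_⟩
      · convert add_mem_sweep (z + a • e) h1 using 1; module
      · rw [mem_preimage]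
        convert add_mem_sweep (rf e (z - a • e)) h2 using 1
        rw [← rf_add]
        congr 1
        module
  have h1 := (measure_mono hsub).trans (volume_avg_le he (isCompact_sweep hK _)
    (convex_sweep hK' _) (preimage_rf_isCompact he (isCompact_sweep hK _))
    (preimage_rf_convex (convex_sweep hK' _)))
  rw [volume_preimage_rf he (isCompact_sweep hK _).measurableSet] at h1
  have h2 := ENNReal.toReal_mono (by
    apply ENNReal.div_ne_top _ (by norm_num)
    exact ENNReal.add_ne_top.2 ⟨(isCompact_sweep hK _).measure_ne_top,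
      (isCompact_sweep hK _).measure_ne_top⟩) h1
  rw [ENNReal.toReal_div, ENNReal.toReal_add (isCompact_sweep hK _).measure_ne_top
    (isCompact_sweep hK _).measure_ne_top] at h2
  simp only [ENNReal.toReal_ofNat] at h2
  simp only [gg, Measure.real, volume_St he hK hK']
  linarith

/-- The polar projection type body. -/
def ZZ (K : Set E) (m : ℝ) : Set E := {w | gg K w ≤ m}

lemma isClosed_ZZ {K : Set E} (hK : IsCompact K) (hK' : Convex ℝ K) (m : ℝ) :
    IsClosed (ZZ K m) := isClosed_le (gg_continuous hK hK') continuous_const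

lemma convex_ZZ {K : Set E} (hK : IsCompact K) (hK' : Convex ℝ K) (m : ℝ) :
    Convex ℝ (ZZ K m) := by
  have := (gg_convexOn hK hK').convex_le m
  simpa [ZZ] using this

lemma St_ZZ_subset {e : E} (he : ‖e‖ = 1) {K : Set E} (hK : IsCompact K) (hK' : Convex ℝ K)
    (m : ℝ) : St e (ZZ K m) ⊆ ZZ (St e K) m := by
  intro z hz
  obtain ⟨a, h1, h2⟩ := mem_St.1 hz
  have := gg_St he hK hK' z a
  simp only [ZZ, mem_setOf_eq] at h1 h2 ⊢
  linarith

/-- The difference body. -/
def DD (K : Set E) : Set E := {z | ∃ x ∈ K, ∃ y ∈ K, z = x - y}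

lemma isCompact_DD {K : Set E} (hK : IsCompact K) : IsCompact (DD K) := by
  have : DD K = (fun p : E × E => p.1 - p.2) '' (K ×ˢ K) := by
    ext z
    constructor
    · rintro ⟨x, hx, y, hy, rfl⟩; exact ⟨(x, y), ⟨hx, hy⟩, rfl⟩
    · rintro ⟨⟨x, y⟩, ⟨hx, hy⟩, rfl⟩; exact ⟨x, hx, y, hy, rfl⟩
  rw [this]
  exact (hK.prod hK).image (by fun_prop)

lemma convex_DD {K : Set E} (hK : Convex ℝ K) : Convex ℝ (DD K) := by
  rintro z₁ ⟨x₁, hx₁, y₁, hy₁, rfl⟩ z₂ ⟨x₂, hx₂, y₂, hy₂, rfl⟩ a b ha hb hab
  exact ⟨a • x₁ + b • x₂, hK hx₁ hx₂ ha hb hab, a • y₁ + b • y₂, hK hy₁ hy₂ ha hb hab, by module⟩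

lemma neg_mem_DD {K : Set E} {z : E} (hz : z ∈ DD K) : -z ∈ DD K := by
  obtain ⟨x, hx, y, hy, rfl⟩ := hz
  exact ⟨y, hy, x, hx, by abel⟩

lemma DD_St_subset {e : E} {K : Set E} : DD (St e K) ⊆ St e (DD K) := by
  rintro z ⟨x, hx, y, hy, rfl⟩
  obtain ⟨a, h1, h2⟩ := mem_St.1 hx
  obtain ⟨b, h3, h4⟩ := mem_St.1 hy
  refine mem_St.2 ⟨a - b, ⟨_, h1, _, h3, by module⟩, ⟨_, h2, _, h4, ?_⟩⟩
  rw [← rf_sub]
  congr 1
  module

lemma DD_mono {K L : Set E} (h : K ⊆ L) : DD K ⊆ DD L := by
  rintro z ⟨x, hx, y, hy, rfl⟩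
  exact ⟨x, h hx, y, h hy, rfl⟩

lemma volume_DD_Orb {K C : Set E} (hK : IsCompact K) (hK' : Convex ℝ K) (h : Orb K C) :
    volume (DD C) ≤ volume (DD K) := by
  obtain ⟨R, hR⟩ := hK.isBounded.subset_closedBall 0
  induction h with
  | base => exact le_rfl
  | @step C e he hC ih =>
    obtain ⟨h1, h2, -, -⟩ := hC.facts hK hK' hR
    calc volume (DD (St e C)) ≤ volume (St e (DD C)) := measure_mono DD_St_subset
      _ = volume (DD C) := volume_St he (isCompact_DD h1) (convex_DD h2)
      _ ≤ volume (DD K) := ih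

lemma NN_mono {u : E} {K L : Set E} (h : K ⊆ L) : NN u K ≤ NN u L := by
  apply lintegral_mono
  intro x
  apply indicator_le_indicator_of_subset
  · intro y hy
    obtain ⟨t, ht⟩ := hy
    exact ⟨t, h ht⟩
  · intro _; exact zero_le

lemma gg_mono {K L : Set E} (hK : IsCompact K) (hK' : Convex ℝ K) (hL : IsCompact L)
    (hL' : Convex ℝ L) (h : K ⊆ L) (w : E) : gg K w ≤ gg L w := by
  by_cases hw : w = 0
  · simp [hw, gg_zero]
  obtain ⟨u, hu, hwu⟩ := exists_unit hw
  rw [hwu, gg_smul_unit hu hK hK' (norm_nonneg _), gg_smul_unit hu hL hL' (norm_nonneg _)]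
  gcongr
  · exact NN_ne_top hu hL hL'
  · exact NN_mono h

lemma interior_nonempty_of_volume {K : Set E} (hK : IsCompact K) (hK' : Convex ℝ K)
    (hv : volume K ≠ 0) : (interior K).Nonempty := by
  by_contra h
  rw [not_nonempty_iff_eq_empty] at h
  apply hv
  have : K = frontier K := by
    rw [frontier, hK.isClosed.closure_eq, h, sdiff_empty]
  rw [this]
  exact hK'.addHaar_frontier volume

/-- If a closed convex set of nonempty interior contains a closed subset of at least the same
volume, they agree. -/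
lemma eq_of_subset_of_volume_le {X Y : Set E} (hX : IsClosed X) (hY : IsCompact Y)
    (hY' : Convex ℝ Y) (hint : (interior Y).Nonempty) (h : X ⊆ Y) (hv : volume Y ≤ volume X) :
    X = Y := by
  apply subset_antisymm h
  intro y hy
  by_contra hyX
  have hcl : y ∈ closure (interior Y) := by
    rw [hY'.closure_interior_eq_closure_of_nonempty_interior hint]
    exact subset_closure hy
  have hopen : IsOpen (Xᶜ) := hX.isOpen_compl
  obtain ⟨z, hz1, hz2⟩ := mem_closure_iff.1 hcl _ hopen hyX
  have hpos : 0 < volume (Xᶜ ∩ interior Y) :=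
    (hopen.inter isOpen_interior).measure_pos _ ⟨z, hz1, hz2⟩
  have h1 : volume X + volume (Xᶜ ∩ interior Y) ≤ volume Y := by
    rw [← measure_union _ (hopen.inter isOpen_interior).measurableSet]
    · apply measure_mono
      exact union_subset h (inter_subset_right.trans interior_subset)
    · apply Disjoint.mono_right inter_subset_left
      exact disjoint_compl_right
  have hfin : volume X ≠ ∞ := ((measure_mono h).trans_lt hY.measure_lt_top).ne
  have h2 : volume X + volume (Xᶜ ∩ interior Y) ≤ volume X + 0 := by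
    rw [add_zero]; exact h1.trans hv
  have h3 := (ENNReal.add_le_add_iff_left hfin).1 h2
  exact absurd hpos (not_lt.2 h3)

end Pool.Agent.H62.MP036
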